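import Pool.Agent.XP.Assembly
import Pool.Agent.XN.GenericBase

/-!
# XG, row G3: the upper bound for the rank at every base point

The machine bounds the rank at generic base points, and the rank is lower semicontinuous.
-/

set_option autoImplicit false
set_option linter.unusedSectionVars false

namespace Pool.XG

open Finset Pool.XD Pool.XM Pool.XN Pool.Agent.Helper87.D3 Pool.Agent.Helper41.CD

/-- the upper bound at the base point `C0` -/
theorem upper {σ L K : Type} [Fintype L] [Field K] [CharZero K] (ty : L → Bool)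
    (D : σ → Option L) (C0 : σ → K) {T S w w0 k r E LU LV d : ℕ} {y : ℝ} {X Y : ℕ → ℝ}
    (f : Fin T → Fin S → MvPolynomial σ K) (hS : 1 ≤ S) (hw : 1 ≤ w) (hw0 : 1 ≤ w0)
    (hf : ∀ i j, f i j ∈ Cls w0 w S k)
    (hX : ∀ i, 0 < X i) (hY : ∀ i, 0 < Y i) (hX0 : X 0 = 1) (hY0 : Y 0 = 1)
    (hnum : ∀ i ≤ 2 * k, NumD d (S * ((d : ℝ) + 1) ^ (8 * (w0 + w) + 16))
        (Real.exp (1 / 2)) (Real.exp y) (X i) (Y i) (X (i + 1)) (Y (i + 1)))
    (hd : r + E ≤ d) (hr : r ≤ LU) (h1U : 1 ≤ nU ty) (h1V : 1 ≤ nV ty)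
    (hL2 : Real.exp (1 / 2) * LU ≤ nU ty + LU - 1)
    (hL3 : (nV ty : ℝ) + LV ≤ Real.exp y * (LV + 1)) :
    ((opM ty (sub D C0 (∑ i, ∏ j, f i j)) LU LV (LU - r) (LV + E)).rank : ℝ) *
        Real.exp (1 / 2) ^ r ≤
      T * (((d : ℝ) + 1) ^ 16 * (X (2 * k + 1) ^ r * Y (2 * k + 1) ^ E)) *
        ((nU ty).multichoose LU * (nV ty).multichoose LV : ℕ) := by
  classical
  obtain ⟨SU, SV, hSU, hSV⟩ := exists_sub ty (K := K)
  have hfV := filt_VV ty (K := K)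
  have hfU := filt_UU ty (K := K)
  have he1 : (0 : ℝ) < Real.exp (1 / 2) := Real.exp_pos _
  have hey : (0 : ℝ) < Real.exp y := Real.exp_pos _
  obtain ⟨W, hW, hmach⟩ := level_machine (σ := σ) (K := K)
    (B := MvPolynomial L K)
    (Pool.CD.cost_Nu hfV hfU hey.le he1.le) (Pool.CD.big_Bi hfV hfU) he1 hey
    (Pool.CD.leaf_Bi hfV hfU (Real.exp y) (Real.exp (1 / 2))) SU SV
    (fun a ha b hb => by
      have h1 := Pool.CD.Nu.ofMul (V := VV ty K) (U := UU ty K)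
        (hv := Real.exp y) (hu := Real.exp (1 / 2)) ((hSU a).1 ha) ((hSV b).1 hb)
      rwa [pow_zero, pow_zero, mul_one] at h1)
    (PhiN ty D) (PhiN_mem ty D) (PhiN_zero ty D)
    (fun c p hp => by
      obtain ⟨α, hα, β, hβ, h1⟩ := PhiN_one ty D c p hp
      exact ⟨α, (hSU α).2 hα, β, (hSV β).2 hβ, h1⟩)
    (d := d) hw0 hw hS hX hY hX0 hY0 hnum f hf
  obtain ⟨V, hV0, hV⟩ := generic_base ty D (∑ i, ∏ j, f i j) C0 hr E LV
  have hWV : W * V ≠ 0 := mul_ne_zero hW hV0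
  obtain ⟨c, hc⟩ : ∃ c : σ → K, MvPolynomial.eval c (W * V) ≠ 0 := by
    by_contra hne
    push Not at hne
    exact hWV (MvPolynomial.funext fun c => by rw [hne c, map_zero])
  rw [map_mul] at hc
  have hcW := left_ne_zero_of_mul hc
  have hcV := right_ne_zero_of_mul hc
  have hNu := hmach c hcW r E hd
  have hPm := PhiN_mem ty D c (∑ i, ∏ j, f i j) r E
  have hrank1 := rank_opM_le ty he1 hey (LU := LU) (LV := LV) (r := r) (E := E)
    hr h1U h1V hL2 hL3 _ hPm.1 hPm.2 hNu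
  refine le_trans (mul_le_mul_of_nonneg_right (Nat.cast_le.2 (hV _ hcV)) (by positivity)) hrank1

/-- the upper bound for the polynomials in the letters -/
theorem upper' {L K : Type} [Fintype L] [Field K] [CharZero K] (ty : L → Bool)
    {T S w w0 k r E LU LV d : ℕ} {y : ℝ} {X Y : ℕ → ℝ}
    (f : Fin T → Fin S → MvPolynomial L K) (hS : 1 ≤ S) (hw : 1 ≤ w) (hw0 : 1 ≤ w0)
    (hf : ∀ i j, f i j ∈ Cls w0 w S k)
    (hX : ∀ i, 0 < X i) (hY : ∀ i, 0 < Y i) (hX0 : X 0 = 1) (hY0 : Y 0 = 1)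
    (hnum : ∀ i ≤ 2 * k, NumD d (S * ((d : ℝ) + 1) ^ (8 * (w0 + w) + 16))
        (Real.exp (1 / 2)) (Real.exp y) (X i) (Y i) (X (i + 1)) (Y (i + 1)))
    (hd : r + E ≤ d) (hr : r ≤ LU) (h1U : 1 ≤ nU ty) (h1V : 1 ≤ nV ty)
    (hL2 : Real.exp (1 / 2) * LU ≤ nU ty + LU - 1)
    (hL3 : (nV ty : ℝ) + LV ≤ Real.exp y * (LV + 1)) :
    ((opM ty (∑ i, ∏ j, f i j) LU LV (LU - r) (LV + E)).rank : ℝ) *
        Real.exp (1 / 2) ^ r ≤
      T * (((d : ℝ) + 1) ^ 16 * (X (2 * k + 1) ^ r * Y (2 * k + 1) ^ E)) *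
        ((nU ty).multichoose LU * (nV ty).multichoose LV : ℕ) := by
  have h := upper ty (fun l => some l) (fun _ => (0 : K)) f hS hw hw0 hf hX hY hX0 hY0 hnum hd hr
    h1U h1V hL2 hL3
  have h1 : sub (fun l : L => some l) (fun _ => (0 : K)) (∑ i, ∏ j, f i j) = ∑ i, ∏ j, f i j := by
    have h2 : (sub (fun l : L => some l) (fun _ => (0 : K)) :
        MvPolynomial L K →ₐ[K] MvPolynomial L K) = AlgHom.id K _ := by
      apply MvPolynomial.algHom_ext
      intro l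
      rw [sub, MvPolynomial.aeval_X, MvPolynomial.C_0, zero_add]
      rfl
    rw [h2]
    rfl
  rwa [h1] at h

end Pool.XG
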