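import Pool.Agent.XG.Count
import Pool.Agent.XG.Upper

/-!
# XG: the core inequality
-/

set_option autoImplicit false
set_option linter.unusedSectionVars false

namespace Pool.XG

open Finset Pool.XD Pool.XP Pool.Agent.Helper87.D3 Pool.Agent.Helper41.CD

section code

variable {I A : Type} [Fintype I] [DecidableEq I] [Fintype A] [DecidableEq A]

theorem support_codeQ (Om : Finset (I → A)) :
    (codeQ Om ℂ).support = Om.image Pool.XP.ex := by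
  classical
  ext p
  rw [MvPolynomial.mem_support_iff, mem_image]
  constructor
  · intro h
    by_contra hne
    push Not at hne
    exact h (coeff_codeQ_eq_zero Om ℂ p hne)
  · rintro ⟨s, hs, rfl⟩
    rw [coeff_codeQ Om ℂ s hs]
    exact one_ne_zero

theorem corr_eq (Om : Finset (I → A)) (F : MvPolynomial (I × A) ℂ) :
    ∑ p ∈ (codeQ Om ℂ).support, starRingEnd ℂ (MvPolynomial.coeff p F) *
      MvPolynomial.coeff p (codeQ Om ℂ) = corr Om F := by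
  classical
  rw [support_codeQ, sum_image fun s _ t _ hst => Pool.XP.ex_injective hst]
  exact sum_congr rfl fun s hs => by rw [coeff_codeQ Om ℂ s hs, mul_one]

theorem l2_codeQ (Om : Finset (I → A)) : l2 (codeQ Om ℂ) = Om.card := by
  classical
  unfold l2
  rw [support_codeQ, sum_image fun s _ t _ hst => Pool.XP.ex_injective hst]
  rw [sum_congr rfl fun s hs => by rw [coeff_codeQ Om ℂ s hs, norm_one, one_pow], sum_const,
    nsmul_eq_mul, mul_one]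

end code

theorem l2_C_mul {L : Type} (a : ℂ) (F : MvPolynomial L ℂ) :
    l2 (MvPolynomial.C a * F) = ‖a‖ ^ 2 * l2 F := by
  rw [l2_eq (MvPolynomial.C a * F) (U := F.support) (by
    intro p hp
    rw [MvPolynomial.mem_support_iff, MvPolynomial.coeff_C_mul] at hp
    exact MvPolynomial.mem_support_iff.2 (right_ne_zero_of_mul hp))]
  unfold l2
  rw [mul_sum]
  exact sum_congr rfl fun p _ => by rw [MvPolynomial.coeff_C_mul, norm_mul, mul_pow]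

/-- complex factors -/
theorem corr_of_close' {L : Type} [Fintype L] (F G : MvPolynomial L ℂ) (γ : ℂ) {τ : ℝ}
    (hτ : 0 ≤ τ) (h : l2 (F - MvPolynomial.C γ * G) < (1 - τ) * (‖γ‖ ^ 2 * l2 G)) :
    0 < l2 F ∧ τ * l2 G * l2 F ≤
      ‖∑ p ∈ G.support, starRingEnd ℂ (MvPolynomial.coeff p F) * MvPolynomial.coeff p G‖ ^ 2 := by
  rcases eq_or_ne γ 0 with rfl | hγ
  · rw [norm_zero] at h
    have := l2_nonneg (F - MvPolynomial.C 0 * G)
    norm_num at h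
    linarith [l2_nonneg F]
  have hn : 0 < ‖γ‖ ^ 2 := by
    have := norm_pos_iff.2 hγ
    positivity
  have e1 : MvPolynomial.C (starRingEnd ℂ γ) * F - MvPolynomial.C ((‖γ‖ ^ 2 : ℝ) : ℂ) * G =
      MvPolynomial.C (starRingEnd ℂ γ) * (F - MvPolynomial.C γ * G) := by
    have : ((‖γ‖ ^ 2 : ℝ) : ℂ) = starRingEnd ℂ γ * γ := by
      rw [mul_comm, Complex.mul_conj, Complex.normSq_eq_norm_sq]
    rw [this, map_mul]
    ring
  have h1 := corr_of_close (MvPolynomial.C (starRingEnd ℂ γ) * F) G (‖γ‖ ^ 2) hτ (by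
    rw [e1, l2_C_mul, RCLike.norm_conj]
    calc ‖γ‖ ^ 2 * l2 (F - MvPolynomial.C γ * G) <
        ‖γ‖ ^ 2 * ((1 - τ) * (‖γ‖ ^ 2 * l2 G)) := mul_lt_mul_of_pos_left h hn
      _ = _ := by ring)
  rw [l2_C_mul, RCLike.norm_conj] at h1
  have e2 : ∑ p ∈ G.support, starRingEnd ℂ (MvPolynomial.coeff p
      (MvPolynomial.C (starRingEnd ℂ γ) * F)) * MvPolynomial.coeff p G =
      γ * ∑ p ∈ G.support, starRingEnd ℂ (MvPolynomial.coeff p F) * MvPolynomial.coeff p G := by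
    rw [mul_sum]
    refine sum_congr rfl fun p _ => ?_
    rw [MvPolynomial.coeff_C_mul, map_mul, Complex.conj_conj]
    ring
  rw [e2, norm_mul, mul_pow] at h1
  refine ⟨pos_of_mul_pos_right (by simpa using h1.1) hn.le, ?_⟩
  refine le_of_mul_le_mul_left ?_ hn
  calc ‖γ‖ ^ 2 * (τ * l2 G * l2 F) = τ * l2 G * (‖γ‖ ^ 2 * l2 F) := by ring
    _ ≤ _ := h1.2

/-- **the core inequality** -/
theorem core {T S w w0 k R Q : ℕ} {y N : ℝ} {X Y : ℕ → ℝ}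
    (f : Fin T → Fin S → MvPolynomial (Row R Q × Col R Q) ℂ) (hS : 1 ≤ S) (hw : 1 ≤ w)
    (hw0 : 1 ≤ w0) (hf : ∀ i j, f i j ∈ Cls w0 w S k)
    (hl : 0 < l2 (∑ i, ∏ j, f i j))
    (hcl : (Om R Q).card * l2 (∑ i, ∏ j, f i j) ≤ N * ‖corr (Om R Q) (∑ i, ∏ j, f i j)‖ ^ 2)
    (hR : 1 ≤ R) (hQ : 1 ≤ Q) (hy : 0 < y) (hy1 : y ≤ 1 / 2)
    (hRQ : (R : ℝ) ≤ 2 * y * Q)
    (hX : ∀ i, 0 < X i) (hY : ∀ i, 0 < Y i) (hX0 : X 0 = 1) (hY0 : Y 0 = 1)
    (hnum : ∀ i ≤ 2 * k, NumD (2 * (R + Q)) (S * ((2 * (R + Q) : ℕ) + 1) ^ (8 * (w0 + w) + 16))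
        (Real.exp (1 / 2)) (Real.exp y) (X i) (Y i) (X (i + 1)) (Y (i + 1))) :
      Real.exp (1 / 2) ^ (2 * R) ≤ (T * N ^ 2) * (((2 * (R + Q) : ℕ) + 1 : ℝ) ^ 16 *
        (X (2 * k + 1) ^ (2 * R) * Y (2 * k + 1) ^ (2 * Q))) *
          (Real.exp 2 * (2 * (R + Q) + 1 : ℝ) ^ 6) := by
  classical
  obtain ⟨d, hd⟩ : ∃ d, d = 2 * (R + Q) := ⟨_, rfl⟩
  obtain ⟨ty, hty⟩ : ∃ ty : Row R Q × Col R Q → Bool, ty = rty tyR := ⟨_, rfl⟩
  obtain ⟨r, hr⟩ : ∃ r, r = 2 * R := ⟨_, rfl⟩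
  obtain ⟨E, hE⟩ : ∃ E, E = 2 * Q := ⟨_, rfl⟩
  have hnU := nU_eq R Q
  have hnV := nV_eq R Q
  rw [← hty] at hnU hnV
  have h1U : 1 ≤ nU ty := by
    rw [hnU]
    exact Nat.mul_pos (by omega) (by omega)
  have h1V : 1 ≤ nV ty := by
    rw [hnV]
    exact Nat.mul_pos (by omega) (by omega)
  obtain ⟨LU, LV, hL1, hL2, hL3, hL4, hL5⟩ := params hR hQ hnU hnV hy
  rw [← hr] at hL1
  have hrank1 := upper' ty (LU := LU) (LV := LV) (r := r) (E := E) (d := d) f hS hw hw0 hf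
    hX hY hX0 hY0 (by rw [hd]; exact hnum) (by omega) (by omega) h1U h1V hL2 hL3
  obtain ⟨F, hF⟩ : ∃ F, F = ∑ i, ∏ j, f i j := ⟨_, rfl⟩
  rw [← hF] at hl hcl hrank1
  -- the count
  have hcount := code_corr (A := Col R Q) tyR (Om R Q) F (LU := LU) (LV := LV) (r := r) (E := E)
    (by rw [card_rows_true, hr]) (by rw [card_rows_false, hE]) (by rw [hr]; omega)
    (oU := Real.exp (1 / 2 + 1 / (R + Q))) (oV := Real.exp (-y))
    (Real.exp_pos _).le (Real.exp_pos _).le (by rw [← hty]; exact h1U)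
    (by rw [← hty]; exact h1V) (by rw [← hty, hr]; exact hL4)
    (by rw [← hty]; exact hL5)
  rw [← hty] at hcount
  have hRr : (1 : ℝ) ≤ R := by exact_mod_cast hR
  have hQr : (1 : ℝ) ≤ Q := by exact_mod_cast hQ
  have hZ := ZB_le (R := R) (Q := Q) (x := 1 / 2) (y := y) (δ := 1 / (R + Q)) hR hQ
    (by norm_num) (by positivity) (by nlinarith) (by nlinarith)
  have hδ : Real.exp (2 * R * (1 / (R + Q))) ≤ Real.exp 2 := by
    apply Real.exp_le_exp.2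
    rw [mul_one_div, div_le_iff₀ (by positivity)]
    nlinarith
  -- conclusion
  have hD0pos : (0 : ℝ) < (((nU ty).multichoose LU * (nV ty).multichoose LV : ℕ) : ℝ) := by
    have h1 : 0 < (nU ty).multichoose LU := by
      rw [Nat.multichoose_eq]
      exact Nat.choose_pos (by omega)
    have h2 : 0 < (nV ty).multichoose LV := by
      rw [Nat.multichoose_eq]
      exact Nat.choose_pos (by omega)
    exact Nat.cast_pos.2 (Nat.mul_pos h1 h2)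
  have hM0 : (0 : ℝ) < ((Om R Q).card : ℝ) ^ 2 := by
    have h1 : 0 < (Om R Q).card := (Om_nonempty R Q).card_pos
    exact pow_pos (Nat.cast_pos.2 h1) 2
  obtain ⟨Z, hZd⟩ : ∃ Z, Z = ZB tyR (Om R Q) (Real.exp (1 / 2 + 1 / (R + Q))) (Real.exp (-y)) :=
    ⟨_, rfl⟩
  have hZ0 : 0 ≤ Z := by
    rw [hZd]
    exact ZB_nonneg _ _ (Real.exp_pos _).le (Real.exp_pos _).le
  rw [← hZd] at hcount hZ
  obtain ⟨D0, hD0⟩ : ∃ D0 : ℝ, D0 = (((nU ty).multichoose LU * (nV ty).multichoose LV : ℕ) : ℝ) :=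
    ⟨_, rfl⟩
  rw [← hD0] at hcount hD0pos hrank1
  obtain ⟨rk, hrk⟩ : ∃ rk : ℝ, rk = ((opM ty F LU LV (LU - r) (LV + E)).rank : ℝ) := ⟨_, rfl⟩
  rw [← hrk] at hcount hrank1
  have hrk0 : 0 ≤ rk := by
    rw [hrk]
    exact Nat.cast_nonneg _
  have hcl2 : ((Om R Q).card : ℝ) ^ 2 * l2 F ^ 2 ≤ N ^ 2 * ‖corr (Om R Q) F‖ ^ 4 := by
    have h0 : (0 : ℝ) ≤ (Om R Q).card * l2 F := mul_nonneg (Nat.cast_nonneg _) hl.le
    have h1 := pow_le_pow_left₀ h0 hcl 2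
    calc ((Om R Q).card : ℝ) ^ 2 * l2 F ^ 2 = ((Om R Q).card * l2 F) ^ 2 := by ring
      _ ≤ (N * ‖corr (Om R Q) F‖ ^ 2) ^ 2 := h1
      _ = _ := by ring
  have hcnt : D0 * ((Om R Q).card : ℝ) ^ 2 ≤ (N ^ 2 * rk) * Z := by
    have hl2 : 0 < l2 F ^ 2 := by positivity
    refine le_of_mul_le_mul_left ?_ hl2
    calc l2 F ^ 2 * (D0 * ((Om R Q).card : ℝ) ^ 2)
        = D0 * (((Om R Q).card : ℝ) ^ 2 * l2 F ^ 2) := by ring
      _ ≤ D0 * (N ^ 2 * ‖corr (Om R Q) F‖ ^ 4) := mul_le_mul_of_nonneg_left hcl2 hD0pos.le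
      _ = N ^ 2 * (D0 * ‖corr (Om R Q) F‖ ^ 4) := by ring
      _ ≤ N ^ 2 * (rk * l2 F ^ 2 * Z) := mul_le_mul_of_nonneg_left hcount (by positivity)
      _ = _ := by ring
  have hrank2 : (N ^ 2 * rk) * Real.exp (1 / 2) ^ r ≤
      (N ^ 2 * (T * (((d : ℝ) + 1) ^ 16 * (X (2 * k + 1) ^ r * Y (2 * k + 1) ^ E)))) * D0 := by
    calc (N ^ 2 * rk) * Real.exp (1 / 2) ^ r = N ^ 2 * (rk * Real.exp (1 / 2) ^ r) := by ring
      _ ≤ N ^ 2 * (T * (((d : ℝ) + 1) ^ 16 * (X (2 * k + 1) ^ r * Y (2 * k + 1) ^ E)) * D0) :=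
          mul_le_mul_of_nonneg_left hrank1 (by positivity)
      _ = _ := by ring
  have h1 := fin_arith hD0pos hM0 (Real.exp_pos (1 / 2)).le (Real.exp_pos 2).le
    (show (0 : ℝ) ≤ (2 * (R + Q) + 1 : ℝ) ^ 6 by positivity)
    le_rfl hcnt (by positivity) (hZ.trans (mul_le_mul_of_nonneg_left
      (mul_le_mul_of_nonneg_right hδ (by positivity)) hM0.le)) hrank2
  rw [hr, hE, hd] at h1
  refine h1.trans (le_of_eq ?_)
  push_cast
  ring

end Pool.XG
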