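import Pool.Agent.QPIT.CircW

/-!
# XG: circuits over the complex numbers with arbitrary entire gates: definitions
-/

set_option autoImplicit false

namespace Pool.XG

open Finset MvPolynomial

/-- `φ` is an entire function of `w` variables: on every bounded set it is a uniform limit of
polynomials -/
def Entire {w : ℕ} (φ : (Fin w → ℂ) → ℂ) : Prop :=
  ∀ R ε : ℝ, 0 < ε → ∃ Q : MvPolynomial (Fin w) ℂ,
    ∀ z : Fin w → ℂ, (∀ i, ‖z i‖ ≤ R) → ‖φ z - eval z Q‖ ≤ ε

/-- The functions `P 0, ..., P (s - 1)` of the complex variables `x v` are the gates of a circuit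
with at most `d` product gates or entire gates on each path. A gate `g` is a linear combination of
`1`, of the variables and of earlier gates, or a product gate: a constant times a product of powers
of variables and of earlier gates, or an entire gate: any entire function of `w` earlier gates. -/
def IsCircuitE {σ : Type} [Fintype σ] (d w : ℕ) {s : ℕ} (P : Fin s → (σ → ℂ) → ℂ) : Prop :=
  ∃ lev : Fin s → ℕ, ∀ g, lev g ≤ d ∧
    ((∃ (a₀ : ℂ) (a : σ → ℂ) (c : Fin s → ℂ), (∀ h, c h ≠ 0 → h < g ∧ lev h ≤ lev g) ∧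
        P g = fun x => a₀ + ∑ v, a v * x v + ∑ h, c h * P h x) ∨
     (∃ (a₀ : ℂ) (a : σ → ℕ) (e : Fin s → ℕ), 0 < lev g ∧
        (∀ h, e h ≠ 0 → h < g ∧ lev h < lev g) ∧
        P g = fun x => a₀ * (∏ v, x v ^ a v) * ∏ h, P h x ^ e h) ∨
     (∃ (t : Fin w → Fin s) (φ : (Fin w → ℂ) → ℂ), 0 < lev g ∧
        (∀ i, t i < g ∧ lev (t i) < lev g) ∧ Entire φ ∧ P g = fun x => φ fun i => P (t i) x))

/-- the `ℓ²` norm of the coefficients -/
noncomputable def l2 {L : Type} (F : MvPolynomial L ℂ) : ℝ :=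
  ∑ p ∈ F.support, ‖coeff p F‖ ^ 2

end Pool.XG
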