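import Pool.Agent.XG.Core
import Pool.Agent.XG.Num
import Pool.Agent.QPIT.CircW

/-!
# XG: the assembly
-/

set_option autoImplicit false

namespace Pool.XG

open Finset Pool.XD Pool.XP Pool.Agent.Helper87.D3 Pool.Agent.Helper41.CD

/-- **XG, the class form**: if `m` is large, no sum of `T` products of `S` polynomials of the class
is closer to `γ` times the paired permanent than `0` by more than the factor `1 - 1 / N` -/
theorem xg_cls : ∃ C : ℝ, 1 ≤ C ∧ ∀ k m T S w w0 N : ℕ, 1 ≤ T → 2 ≤ S → 1 ≤ w → 1 ≤ w0 → 1 ≤ N →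
    C * Real.log (2 * m * ((T * N ^ 2 : ℕ) : ℝ)) *
      (C * (Real.log S + (w + w0) * Real.log (2 * m))) ^ (Nat.fib (2 * k + 4) - 2) < m →
    ∃ R Q : ℕ, 1 ≤ R ∧ 1 ≤ Q ∧ R + Q = m / 4 ∧
      ∀ f : Fin T → Fin S → MvPolynomial (Row R Q × Col R Q) ℂ,
        (∀ i j, f i j ∈ Cls w0 w S k) → ∀ γ : ℂ,
        (1 - 1 / (N : ℝ)) * (‖γ‖ ^ 2 * (Om R Q).card) ≤
          l2 ((∑ i, ∏ j, f i j) - MvPolynomial.C γ * codeQ (Om R Q) ℂ) := by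
  have hB : (1 : ℝ) ≤ Real.exp 2 := Real.one_le_exp (by norm_num)
  obtain ⟨C, hC, hfin⟩ := xg_final (Real.exp 2) hB
  refine ⟨C, hC, ?_⟩
  intro k m T S w w0 N hT hS hw hw0 hN hm
  obtain ⟨y, X, Y, hy, hy1, hX0, hY0, hX, hY, hnum, h⟩ :=
    hfin k m (T * N ^ 2) S w w0 (Nat.mul_pos hT (pow_pos hN 2)) hS hw hw0
  have h1 : ¬ ∀ R Q : ℕ, 1 ≤ R → 1 ≤ Q → R + Q = m / 4 → (R : ℝ) ≤ 2 * y * Q →
          Real.exp (1 / 2) ^ (2 * R) ≤ ((T * N ^ 2 : ℕ) : ℝ) *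
            ((2 * (R + Q) : ℕ) + 1 : ℝ) ^ 16 *
            (X (2 * k + 1) ^ (2 * R) * Y (2 * k + 1) ^ (2 * Q)) *
              (Real.exp 2 * (2 * (R + Q) + 1 : ℝ) ^ 6) := by
    intro hall
    exact absurd (h hall) (not_le.2 hm)
  push Not at h1
  obtain ⟨R, Q, hR, hQ, hRQ, hRy, hlt⟩ := h1
  refine ⟨R, Q, hR, hQ, hRQ, fun f hf γ => ?_⟩
  by_contra hcon
  rw [not_le] at hcon
  have hNr : (1 : ℝ) ≤ N := by exact_mod_cast hN
  have h2 := corr_of_close' (∑ i, ∏ j, f i j) (codeQ (Om R Q) ℂ) γ (τ := 1 / (N : ℝ))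
    (by positivity) (by rw [l2_codeQ]; exact hcon)
  rw [corr_eq, l2_codeQ] at h2
  have h3 : ((Om R Q).card : ℝ) * l2 (∑ i, ∏ j, f i j) ≤
      (N : ℝ) * ‖corr (Om R Q) (∑ i, ∏ j, f i j)‖ ^ 2 := by
    have h4 := mul_le_mul_of_nonneg_left h2.2 (show (0 : ℝ) ≤ N by positivity)
    calc ((Om R Q).card : ℝ) * l2 (∑ i, ∏ j, f i j) =
        (N : ℝ) * (1 / (N : ℝ) * (Om R Q).card * l2 (∑ i, ∏ j, f i j)) := by
          field_simp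
      _ ≤ _ := h4
  have h5 := core f (by omega) hw hw0 hf h2.1 h3 hR hQ hy hy1 hRy hX hY hX0 hY0
    (fun i hi => hnum (2 * (R + Q)) (by omega) i hi)
  refine absurd (h5.trans (le_of_eq ?_)) (not_le.2 hlt)
  push_cast
  ring

/-- **XG**: `ε = exp (- c m ^ (1 / (F - 1)))`, `F` = Fibonacci `(2 k + 4)`; a gate of a circuit with
polynomial gates, all affine substitutions `φ`, all `γ` -/
theorem xg : ∃ c : ℝ, 0 < c ∧ ∀ (k w m n s : ℕ), 1 ≤ m → m ≤ n → 1 ≤ s → 1 ≤ w →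
    (s : ℝ) + (n : ℝ) ^ w < Real.exp (c * (m : ℝ) ^ (1 / ((Nat.fib (2 * k + 4) : ℝ) - 1))) →
    ∃ R Q : ℕ, 1 ≤ R ∧ 1 ≤ Q ∧ R + Q = m / 4 ∧
      ∀ P : Fin s → MvPolynomial (Fin n × Fin n) ℂ, Pool.QPIT.IsCircuitW (k + 1) w P →
      ∀ (g : Fin s) (φ : Fin n × Fin n → MvPolynomial (Row R Q × Col R Q) ℂ),
        (∀ p, (φ p).totalDegree ≤ 1) → ∀ γ : ℂ,
        (1 - Real.exp (-(c * (m : ℝ) ^ (1 / ((Nat.fib (2 * k + 4) : ℝ) - 1))))) *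
          (‖γ‖ ^ 2 * (Om R Q).card) ≤
            l2 (MvPolynomial.aeval φ (P g) - MvPolynomial.C γ * codeQ (Om R Q) ℂ) := by
  obtain ⟨C, hC, hcls⟩ := xg_cls
  obtain ⟨c, hc, hnum⟩ := circ_num_g hC
  refine ⟨c, hc, ?_⟩
  intro k w m n s hm hmn hs hw hsize
  have h3 : 3 ≤ Nat.fib (2 * k + 4) := by
    have : Nat.fib 4 ≤ Nat.fib (2 * k + 4) := Nat.fib_mono (by omega)
    exact this
  have hsub : ((Nat.fib (2 * k + 4) - 2 : ℕ) : ℝ) + 1 = (Nat.fib (2 * k + 4) : ℝ) - 1 := by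
    push_cast [Nat.cast_sub (show 2 ≤ Nat.fib (2 * k + 4) by omega)]
    ring
  obtain ⟨V, hV⟩ : ∃ V : ℝ, V = c * (m : ℝ) ^ (1 / ((Nat.fib (2 * k + 4) : ℝ) - 1)) := ⟨_, rfl⟩
  have h4 := hnum (Nat.fib (2 * k + 4) - 2) m n s w hm hmn hs hw
  rw [hsub, ← hV] at h4
  rw [← hV] at hsize ⊢
  obtain ⟨N, hN, hVN, hlt⟩ := h4 hsize
  have hn2 : 1 ≤ n ^ 2 := Nat.one_le_pow _ _ (by omega)
  obtain ⟨R, Q, hR, hQ, hRQ, H⟩ := hcls k m (s + 1) (s + n ^ 2 + 1) w w N (by omega) (by omega) hw hw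
    hN hlt
  refine ⟨R, Q, hR, hQ, hRQ, fun P hP g φ hφ γ => ?_⟩
  obtain ⟨f, hf, hfg⟩ := Pool.QPIT.circuit_sumW (S := s + n ^ 2 + 1) hw
    (by rw [Fintype.card_prod, Fintype.card_fin, sq]) hP g
  have h5 := H (fun i j => MvPolynomial.aeval φ (f i j)) (fun i j => cls_aeval φ hφ (hf i j)) γ
  have h6 : ∑ i, ∏ j, MvPolynomial.aeval φ (f i j) = MvPolynomial.aeval φ (P g) := by
    rw [← hfg, map_sum]
    exact sum_congr rfl fun i _ => (map_prod _ _ _).symm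
  rw [h6] at h5
  refine le_trans (mul_le_mul_of_nonneg_right ?_ (by positivity)) h5
  have hNr : (0 : ℝ) < N := by exact_mod_cast hN
  have h7 : 1 / (N : ℝ) ≤ Real.exp (-V) := by
    rw [Real.exp_neg, ← one_div]
    exact one_div_le_one_div_of_le (Real.exp_pos _) hVN
  linarith

end Pool.XG
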