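import Pool.Agent.XGN.Pair
import Pool.Agent.XP.PairsC

/-!
# XG: substitutions of small constants, the matrix of the paired permanent (row G9)
-/

set_option autoImplicit false
set_option linter.unusedSectionVars false

namespace Pool.XG

open Finset MvPolynomial

/-- substituting constants of modulus less than one -/
theorem l2_subst {L : Type} [Fintype L] [DecidableEq L] (h : MvPolynomial L ℂ) (A : L → ℂ)
    (S : Finset L) (hA : ∀ l ∈ S, ‖A l‖ < 1) :
    l2 (aeval (fun l => if l ∈ S then C (A l) else X l : L → MvPolynomial L ℂ) h) ≤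
      (∏ l ∈ S, (1 - ‖A l‖ ^ 2)⁻¹) * l2 h := by
  classical
  set τ : L → L ⊕ ℂ := fun l => if l ∈ S then Sum.inr (A l) else Sum.inl l with hτ
  have e1 : ∀ l ∈ S, τ l = Sum.inr (A l) := fun l hl => if_pos hl
  have e2 : ∀ l, l ∉ S → τ l = Sum.inl l := fun l hl => if_neg hl
  have h1 : Pool.XGN.Inj τ := by
    intro v v' l hv hv'
    by_cases h2 : v ∈ S
    · rw [e1 v h2] at hv
      exact absurd hv (by simp)
    · by_cases h3 : v' ∈ S
      · rw [e1 v' h3] at hv'
        exact absurd hv' (by simp)
      · rw [e2 v h2, Sum.inl.injEq] at hv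
        rw [e2 v' h3, Sum.inl.injEq] at hv'
        rw [hv, hv']
  have h2 : ∀ v c, τ v = Sum.inr c → ‖c‖ < 1 := by
    intro v c hv
    by_cases h3 : v ∈ S
    · rw [e1 v h3, Sum.inr.injEq] at hv
      rw [← hv]
      exact hA v h3
    · rw [e2 v h3] at hv
      exact absurd hv (by simp)
  have h3 := Pool.XGN.l2_sub_le τ h1 h2 h
  have h4 : Pool.XGN.sub τ = fun l => if l ∈ S then C (A l) else X l := by
    funext l
    unfold Pool.XGN.sub
    by_cases hl : l ∈ S
    · rw [e1 l hl, if_pos hl]
    · rw [e2 l hl, if_neg hl]
  have h5 : ∏ v, Pool.XGN.ker τ v = ∏ l ∈ S, (1 - ‖A l‖ ^ 2)⁻¹ := by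
    rw [← prod_subset (subset_univ S)]
    · refine prod_congr rfl fun l hl => ?_
      unfold Pool.XGN.ker
      rw [e1 l hl]
    · intro l _ hl
      unfold Pool.XGN.ker
      rw [e2 l hl]
  rw [h4, h5] at h3
  exact h3

open Pool.XP in
/-- the number of words -/
theorem card_Om_ge (R Q : ℕ) : (2 * (R + Q)).factorial ≤ 4 ^ (R + Q) * (Om R Q).card := by
  have h1 : (2 * (R + Q)).factorial =
      (2 * (R + Q)).choose (2 * R) * ((2 * R).factorial * (2 * Q).factorial) := by
    have h2 := Nat.choose_mul_factorial_mul_factorial (n := 2 * (R + Q)) (k := 2 * R) (by omega)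
    rw [← h2, show 2 * (R + Q) - 2 * R = 2 * Q by omega, mul_assoc]
  have h3 : (2 * (R + Q)).choose (2 * R) ≤ 4 ^ (R + Q) := by
    refine (Nat.choose_le_two_pow _ _).trans (le_of_eq ?_)
    rw [pow_mul]
    norm_num
  have h4 : (2 * R).factorial * (2 * Q).factorial ≤ (Om R Q).card := by
    refine le_trans ?_ Pool.XP.card_Om_ge
    exact Nat.le_mul_of_pos_left _ (Nat.choose_pos (Nat.le_add_right _ _))
  rw [h1]
  exact Nat.mul_le_mul h3 h4

open Pool.XP in
/-- the constants of the matrix -/
def cst {R Q k : ℕ} (i j : Pool.XGN.Idx R Q ⊕ Fin k) : ℤ :=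
  match i, j with
  | Sum.inl (Sum.inr r), Sum.inl (Sum.inl c) => if r.1 = c.1 then 1 else 0
  | Sum.inl (Sum.inr r), Sum.inl (Sum.inr c) => if r.1 = c.1 then (if r.2 then -1 else 1) else 0
  | Sum.inr a, Sum.inr b => if a = b then 1 else 0
  | _, _ => 0

open Pool.XP in
/-- the letters of the paired permanent are entries of an `n × n` matrix; `J` = the rows without
letters; at most four nonzero constant entries in such a row -/
theorem exists_mat (R Q n : ℕ) (hn : 4 * (R + Q) ≤ n) :
    ∃ (A : Fin n → Fin n → ℤ) (pos : Row R Q × Col R Q → Fin n × Fin n) (J : Finset (Fin n)),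
      Function.Injective pos ∧ (∀ l, (pos l).1 ∉ J) ∧ (∀ i j, A i j = 0 ∨ A i j = 1 ∨ A i j = -1) ∧
      (∀ i ∉ J, ∀ j, A i j = 0) ∧ (∀ i ∈ J, (univ.filter fun j => A i j ≠ 0).card ≤ 4) ∧
      J.card + 2 * (R + Q) = n ∧
      ∀ (K : Type) [CommRing K] (a : K) (x : Row R Q × Col R Q → K) (M : Fin n → Fin n → K),
        (∀ l, M (pos l).1 (pos l).2 = x l) →
        (∀ i j, (∀ l, pos l ≠ (i, j)) → M i j = a * (A i j : K)) →
        (Matrix.of M).permanent = a ^ J.card * ((-2) ^ R * 2 ^ Q) * ∑ s ∈ Om R Q, ∏ i, x (i, s i) := by
  classical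
  obtain ⟨e⟩ : Nonempty (Col R Q ≃ Row R Q) := ⟨Fintype.equivOfCardEq card_row_col.symm⟩
  obtain ⟨k, hk⟩ : ∃ k, k = n - 4 * (R + Q) := ⟨_, rfl⟩
  have hcc : Fintype.card (Col R Q) = 2 * (R + Q) := by
    simp only [Col, Fintype.card_prod, Fintype.card_fin, Fintype.card_bool]
    ring
  have hn' : Fintype.card (Pool.XGN.Idx R Q ⊕ Fin k) = n := by
    simp only [Pool.XGN.Idx, Fintype.card_sum, hcc, Fintype.card_fin]
    omega
  let E : Fin n ≃ Pool.XGN.Idx R Q ⊕ Fin k := (finCongr hn'.symm).trans (Fintype.equivFin _).symm
  let hl : Pool.XGN.Idx R Q ⊕ Fin k → Bool := fun i => match i with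
    | Sum.inl (Sum.inl _) => false
    | _ => true
  let ct : Row R Q × Col R Q → Pool.XGN.Idx R Q := fun l =>
    if tyR l.1 then Sum.inl l.2 else Sum.inr l.2
  refine ⟨fun i j => cst (E i) (E j), fun l => (E.symm (Sum.inl (Sum.inl (e.symm l.1))),
    E.symm (Sum.inl (ct l))), univ.filter fun i => hl (E i) = true, ?_, ?_, ?_, ?_, ?_, ?_, ?_⟩
  · rintro ⟨i, c⟩ ⟨i', c'⟩ h
    rw [Prod.mk.injEq, E.symm.injective.eq_iff, E.symm.injective.eq_iff, Sum.inl.injEq,
      Sum.inl.injEq, Sum.inl.injEq, e.symm.injective.eq_iff] at h
    obtain ⟨h1, h2⟩ := h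
    simp only at h1
    subst h1
    simp only [ct] at h2
    split_ifs at h2
    · rw [Sum.inl.injEq] at h2
      rw [h2]
    · rw [Sum.inr.injEq] at h2
      rw [h2]
  · intro l h
    rw [mem_filter] at h
    simp [hl] at h
  · intro i j
    simp only
    unfold cst
    rcases E i with (r | r) | a <;> rcases E j with (c | c) | b <;> simp only <;>
      (try split_ifs) <;> simp
  · intro i hi j
    rw [mem_filter] at hi
    simp only
    unfold cst
    rcases h : E i with (r | r) | a
    · rcases E j with (c | c) | b <;> rfl
    · exact absurd ⟨mem_univ _, by rw [h]⟩ hi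
    · exact absurd ⟨mem_univ _, by rw [h]⟩ hi
  · intro i hi
    simp only
    rcases h : E i with (r | r) | a
    · rw [mem_filter, h] at hi
      simp [hl] at hi
    · -- four entries
      have h1 : (univ.filter fun j => cst (Sum.inl (Sum.inr r)) (E j) ≠ 0) ⊆
          ((univ : Finset (Bool × Bool)).image fun b =>
            E.symm (if b.1 then Sum.inl (Sum.inl (r.1, b.2)) else Sum.inl (Sum.inr (r.1, b.2)))) := by
        intro j hj
        rw [mem_filter] at hj
        rw [mem_image]
        have hj2 := hj.2
        rcases hE : E j with (c | c) | b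
        · refine ⟨(true, c.2), mem_univ _, ?_⟩
          rw [if_pos rfl, Equiv.symm_apply_eq, hE]
          rw [hE] at hj2
          have h3 : r.1 = c.1 := by
            by_contra hne
            exact hj2 (if_neg hne)
          rw [h3]
        · refine ⟨(false, c.2), mem_univ _, ?_⟩
          rw [if_neg (by simp), Equiv.symm_apply_eq, hE]
          rw [hE] at hj2
          have h3 : r.1 = c.1 := by
            by_contra hne
            exact hj2 (if_neg hne)
          rw [h3]
        · rw [hE] at hj2
          exact absurd rfl hj2
      exact (card_le_card h1).trans card_image_le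
    · have h1 : (univ.filter fun j => cst (Sum.inr a : Pool.XGN.Idx R Q ⊕ Fin k) (E j) ≠ 0) ⊆
          {E.symm (Sum.inr a)} := by
        intro j hj
        rw [mem_filter] at hj
        rw [mem_singleton]
        have hj2 := hj.2
        rcases hE : E j with (c | c) | b
        · rw [hE] at hj2
          exact absurd rfl hj2
        · rw [hE] at hj2
          exact absurd rfl hj2
        · rw [hE] at hj2
          have h3 : a = b := by
            by_contra hne
            exact hj2 (if_neg hne)
          rw [Equiv.eq_symm_apply, hE, h3]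
      refine (card_le_card h1).trans ?_
      rw [card_singleton]
      norm_num
  · have h1 : (univ.filter fun i => hl (E i) = true).card =
        (univ.filter fun i : Pool.XGN.Idx R Q ⊕ Fin k => hl i = true).card := by
      refine card_equiv E fun i => ?_
      simp
    have h2 : (univ.filter fun i : Pool.XGN.Idx R Q ⊕ Fin k => hl i = true).card = 2 * (R + Q) + k := by
      rw [card_filter, Fintype.sum_sum_type, Fintype.sum_sum_type]
      simp only [hl]
      simp [hcc]
    rw [h1, h2]
    omega
  · intro K _ a x M h1 h2
    beta_reduce at h1 h2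
    have hpos : ∀ l i j, (E.symm (Sum.inl (Sum.inl (e.symm l.1))), E.symm (Sum.inl (ct l))) = (i, j) ↔
        (E i = Sum.inl (Sum.inl (e.symm l.1)) ∧ E j = Sum.inl (ct l)) := by
      intro l i j
      rw [Prod.mk.injEq, Equiv.symm_apply_eq, Equiv.symm_apply_eq]
      constructor
      · rintro ⟨h4, h5⟩
        exact ⟨h4.symm, h5.symm⟩
      · rintro ⟨h4, h5⟩
        exact ⟨h4.symm, h5.symm⟩
    have h3 : ∀ i j, M i j = (if hl (E i) = true then a else 1) *
        Pool.Agent.Helper97.Form.padM (Fin k) (pm e x) (E i) (E j) := by
      intro i j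
      rcases hi : E i with (r | r) | b
      · rcases hj : E j with (c | c) | b
        · show M i j = 1 * (if tyR (e r) then x (e r, c) else 0)
          rw [one_mul]
          split_ifs with ht
          · have h4 := (hpos (e r, c) i j).2 ⟨by rw [hi, Equiv.symm_apply_apply], by
              rw [hj]
              simp only [ct, if_pos ht]⟩
            have h5 := h1 (e r, c)
            rw [Prod.mk.injEq] at h4
            rw [h4.1, h4.2] at h5
            exact h5
          · rw [h2 i j, hi, hj]
            · show a * ((0 : ℤ) : K) = 0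
              simp
            · intro l hl'
              rw [hpos, hi, hj] at hl'
              obtain ⟨h4, h5⟩ := hl'
              simp only [Sum.inl.injEq] at h4
              simp only [ct, Sum.inl.injEq] at h5
              rw [h4, Equiv.apply_symm_apply] at ht
              rw [if_neg ht] at h5
              exact absurd h5 (by simp)
        · show M i j = 1 * (if tyR (e r) then 0 else x (e r, c))
          rw [one_mul]
          split_ifs with ht
          · rw [h2 i j, hi, hj]
            · show a * ((0 : ℤ) : K) = 0
              simp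
            · intro l hl'
              rw [hpos, hi, hj] at hl'
              obtain ⟨h4, h5⟩ := hl'
              simp only [Sum.inl.injEq] at h4
              simp only [ct, Sum.inl.injEq] at h5
              rw [h4, Equiv.apply_symm_apply] at ht
              rw [if_pos ht] at h5
              exact absurd h5 (by simp)
          · have h4 := (hpos (e r, c) i j).2 ⟨by rw [hi, Equiv.symm_apply_apply], by
              rw [hj]
              simp only [ct, if_neg ht]⟩
            have h5 := h1 (e r, c)
            rw [Prod.mk.injEq] at h4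
            rw [h4.1, h4.2] at h5
            exact h5
        · show M i j = 1 * 0
          rw [h2 i j, hi, hj]
          · show a * ((0 : ℤ) : K) = 1 * 0
            simp
          · intro l hl'
            rw [hpos, hj] at hl'
            exact absurd hl'.2 (by simp)
      · rw [h2 i j, hi]
        · rcases hj : E j with (c | c) | b
          · show a * (((if r.1 = c.1 then 1 else 0 : ℤ)) : K) = a * (if r.1 = c.1 then 1 else 0)
            split_ifs <;> simp
          · show a * (((if r.1 = c.1 then (if r.2 then -1 else 1) else 0 : ℤ)) : K) =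
              a * (if r.1 = c.1 then (if r.2 then -1 else 1) else 0)
            split_ifs <;> simp
          · show a * ((0 : ℤ) : K) = a * 0
            simp
        · intro l hl'
          rw [hpos, hi] at hl'
          exact absurd hl'.1 (by simp)
      · rw [h2 i j, hi]
        · rcases hj : E j with (c | c) | b'
          · show a * ((0 : ℤ) : K) = a * 0
            simp
          · show a * ((0 : ℤ) : K) = a * 0
            simp
          · show a * (((if b = b' then 1 else 0 : ℤ)) : K) = a * (if b = b' then 1 else 0)
            split_ifs <;> simp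
        · intro l hl'
          rw [hpos, hi] at hl'
          exact absurd hl'.1 (by simp)
    have h4 : Matrix.of M = Matrix.of fun i j => (if hl (E i) = true then a else 1) *
        (Matrix.of fun i j => Pool.Agent.Helper97.Form.padM (Fin k) (pm e x) (E i) (E j)) i j := by
      refine Matrix.ext fun i j => ?_
      exact h3 i j
    have h5 : ∏ i, (if hl (E i) = true then a else 1) =
        a ^ (univ.filter fun i => hl (E i) = true).card := by
      rw [prod_ite, prod_const, prod_const_one, mul_one]
    rw [h4, Pool.XGN.permanent_row_mul, h5, Pool.Agent.Helper97.Form.permanent_reindex E E,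
      Pool.Agent.Helper97.Form.padM_permanent, pm_permanent]
    ring

end Pool.XG
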