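import Pool.Agent.XG.Rot
import Pool.Agent.XG.Assembly
import Pool.Agent.XGN.FinalOf

/-!
# XG: the second moment of the permanent, approximation of the permanent by circuits
-/

set_option autoImplicit false

namespace Pool.XG

open Finset MvPolynomial MeasureTheory Pool.XGN

section second

variable {L : Type} [Fintype L] (κ : L → Measure ℂ) [∀ l, IsFiniteMeasure (κ l)]

/-- **Parseval for rotation invariant laws**, integrable form -/
theorem parseval_rot_int (hrot : ∀ l, ∀ u : ℂ, ‖u‖ = 1 → (κ l).map (fun z => u * z) = κ l)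
    (F : MvPolynomial L ℂ)
    (hmon : ∀ (l : L), ∀ p ∈ F.support, ∀ q ∈ F.support,
      Integrable (fun z : ℂ => z ^ p l * starRingEnd ℂ (z ^ q l)) (κ l)) :
    Integrable (fun x : L → ℂ => ‖eval x F‖ ^ 2) (Measure.pi κ) ∧
    ∫ x : L → ℂ, ‖eval x F‖ ^ 2 ∂(Measure.pi κ) =
      ∑ p ∈ F.support, ‖coeff p F‖ ^ 2 * ∏ l, ∫ z, ‖z‖ ^ (2 * p l) ∂κ l := by
  have hprod : ∀ (p q : L →₀ ℕ) (x : L → ℂ), (∏ l, x l ^ p l) * starRingEnd ℂ (∏ l, x l ^ q l) =
      ∏ l, x l ^ p l * starRingEnd ℂ (x l ^ q l) := by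
    intro p q x
    rw [map_prod, ← prod_mul_distrib]
  have h1 : ∀ p q : L →₀ ℕ, ∫ x : L → ℂ, (∏ l, x l ^ p l) * starRingEnd ℂ (∏ l, x l ^ q l)
      ∂(Measure.pi κ) = if p = q then ((∏ l, ∫ z, ‖z‖ ^ (2 * p l) ∂κ l : ℝ) : ℂ) else 0 := by
    intro p q
    simp only [hprod]
    rw [MeasureTheory.integral_fintype_prod_eq_prod
      (f := fun (l : L) (z : ℂ) => z ^ p l * starRingEnd ℂ (z ^ q l))]
    split_ifs with hpq
    · subst hpq
      push_cast
      exact prod_congr rfl fun l _ => moment_eq (p l)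
    · obtain ⟨l, hl⟩ := Finsupp.ne_iff.1 hpq
      exact prod_eq_zero (mem_univ l) (moment_ne (hrot l) hl)
  have h2 : ∀ x : L → ℂ, ((‖eval x F‖ ^ 2 : ℝ) : ℂ) =
      ∑ p ∈ F.support, ∑ q ∈ F.support, coeff p F * starRingEnd ℂ (coeff q F) *
        ((∏ l, x l ^ p l) * starRingEnd ℂ (∏ l, x l ^ q l)) := by
    intro x
    rw [← Complex.normSq_eq_norm_sq, ← Complex.mul_conj, eval_eq', map_sum, sum_mul_sum]
    refine sum_congr rfl fun p _ => sum_congr rfl fun q _ => ?_
    rw [map_mul]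
    ring
  have hint : ∀ p ∈ F.support, ∀ q ∈ F.support, Integrable (fun x : L → ℂ =>
      coeff p F * starRingEnd ℂ (coeff q F) * ((∏ l, x l ^ p l) *
        starRingEnd ℂ (∏ l, x l ^ q l))) (Measure.pi κ) := by
    intro p hp q hq
    simp only [hprod]
    exact (Integrable.fintype_prod (f := fun (l : L) (z : ℂ) => z ^ p l * starRingEnd ℂ (z ^ q l))
      fun l => hmon l p hp q hq).const_mul _
  have hsum : Integrable (fun x : L → ℂ => ∑ p ∈ F.support, ∑ q ∈ F.support,
      coeff p F * starRingEnd ℂ (coeff q F) * ((∏ l, x l ^ p l) *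
        starRingEnd ℂ (∏ l, x l ^ q l))) (Measure.pi κ) :=
    integrable_finsetSum _ fun p hp => integrable_finsetSum _ fun q hq => hint p hp q hq
  refine ⟨?_, ?_⟩
  · have h5 := hsum.re
    refine h5.congr (Filter.Eventually.of_forall fun x => ?_)
    simp only
    rw [← h2 x]
    exact Complex.ofReal_re _
  have h3 : ((∫ x : L → ℂ, ‖eval x F‖ ^ 2 ∂(Measure.pi κ) : ℝ) : ℂ) =
      ((∑ p ∈ F.support, ‖coeff p F‖ ^ 2 * ∏ l, ∫ z, ‖z‖ ^ (2 * p l) ∂κ l : ℝ) : ℂ) := by
    rw [← integral_complex_ofReal]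
    simp only [h2]
    rw [integral_finsetSum _ fun p hp => integrable_finsetSum _ fun q hq => hint p hp q hq]
    simp only [Complex.ofReal_sum]
    refine sum_congr rfl fun p hp => ?_
    rw [integral_finsetSum _ fun q hq => hint p hp q hq]
    have h4 : ∀ q ∈ F.support, ∫ x : L → ℂ, coeff p F * starRingEnd ℂ (coeff q F) *
        ((∏ l, x l ^ p l) * starRingEnd ℂ (∏ l, x l ^ q l)) ∂(Measure.pi κ) =
        if p = q then coeff p F * starRingEnd ℂ (coeff q F) *
          ((∏ l, ∫ z, ‖z‖ ^ (2 * p l) ∂κ l : ℝ) : ℂ) else 0 := by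
      intro q _
      rw [integral_const_mul, h1 p q]
      split_ifs <;> simp
    rw [sum_congr rfl h4, sum_ite_eq, if_pos hp, Complex.mul_conj, Complex.normSq_eq_norm_sq]
    push_cast
    ring
  exact_mod_cast h3

/-- if all exponents are at most one and all second moments are one, the second moment of `F` is
the sum of the squares of its coefficients -/
theorem second_moment (ν : L → Measure ℂ) [∀ l, IsProbabilityMeasure (ν l)]
    (hrot : ∀ l, ∀ u : ℂ, ‖u‖ = 1 → (ν l).map (fun z => u * z) = ν l)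
    (h2 : ∀ l, ∫ z, ‖z‖ ^ 2 ∂ν l = 1) (F : MvPolynomial L ℂ)
    (hF : ∀ p ∈ F.support, ∀ l, p l ≤ 1) :
    ∫⁻ x, ENNReal.ofReal (‖eval x F‖ ^ 2) ∂(Measure.pi ν) = ENNReal.ofReal (l2 F) := by
  have hi2 : ∀ l, Integrable (fun z : ℂ => ‖z‖ ^ 2) (ν l) := by
    intro l
    by_contra h
    have := h2 l
    rw [integral_undef h] at this
    exact zero_ne_one this
  obtain ⟨hI, hE⟩ := parseval_rot_int ν hrot F (by
    intro l p hp q hq
    refine Integrable.mono' ((integrable_const (1 : ℝ)).add (hi2 l))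
      ((continuous_pow _).mul (Complex.continuous_conj.comp (continuous_pow _))).aestronglyMeasurable
      (Filter.Eventually.of_forall fun z => ?_)
    rw [norm_mul, RCLike.norm_conj, norm_pow, norm_pow, ← pow_add]
    have h3 := hF p hp l
    have h4 := hF q hq l
    have h5 : p l + q l ≤ 2 := by omega
    have h0 : 0 ≤ ‖z‖ := norm_nonneg z
    show ‖z‖ ^ (p l + q l) ≤ 1 + ‖z‖ ^ 2
    rcases le_total ‖z‖ 1 with h | h
    · have := pow_le_one₀ (n := p l + q l) h0 h
      nlinarith [sq_nonneg ‖z‖]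
    · have := pow_le_pow_right₀ h h5
      linarith)
  rw [← ofReal_integral_eq_lintegral_ofReal hI (Filter.Eventually.of_forall fun x => by positivity),
    hE]
  congr 1
  unfold l2
  refine sum_congr rfl fun p hp => ?_
  rw [prod_eq_one, mul_one]
  intro l _
  have h3 := hF p hp l
  interval_cases hpl : p l
  · simp
  · exact h2 l

end second

/-- the second moment of the permanent -/
theorem second_moment_perm (n : ℕ) (ν : Fin n × Fin n → Measure ℂ)
    [∀ l, IsProbabilityMeasure (ν l)]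
    (hrot : ∀ l, ∀ u : ℂ, ‖u‖ = 1 → (ν l).map (fun z => u * z) = ν l)
    (h2 : ∀ l, ∫ z, ‖z‖ ^ 2 ∂ν l = 1) :
    ∫⁻ x, ENNReal.ofReal (‖eval x (Pool.CDep.permP n ℂ)‖ ^ 2) ∂(Measure.pi ν) = n.factorial := by
  have h1 : Pool.CDep.permP n ℂ = permI (Fin n) := rfl
  rw [h1, second_moment ν hrot h2, l2_permI, Fintype.card_fin]
  · exact ENNReal.ofReal_natCast _
  · intro p hp l
    rw [permI_eq] at hp
    have h3 := support_sum hp
    simp only [mem_biUnion, mem_univ, true_and] at h3
    obtain ⟨σ, hσ⟩ := h3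
    have h4 := support_monomial_subset hσ
    rw [mem_singleton] at h4
    rw [h4]
    unfold pex
    rw [Finsupp.finsetSum_apply]
    rw [sum_eq_single l.2]
    · rw [Finsupp.single_apply]
      split_ifs <;> omega
    · intro j _ hj
      rw [Finsupp.single_apply, if_neg]
      intro h5
      exact hj (Prod.ext_iff.1 h5).2
    · intro h5
      exact absurd (mem_univ _) h5

end Pool.XG
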