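import Pool.Agent.XG.Fiber
import Pool.Agent.XP.Assembly

/-!
# XG, row G2: the robust trace bound for a code
-/

set_option autoImplicit false
set_option linter.unusedSectionVars false

namespace Pool.XG

open Finset Pool.XD Pool.XP Matrix

open scoped ComplexOrder

section words

variable {I A : Type} [Fintype I] [DecidableEq I] [Fintype A] [DecidableEq A]

/-- the correlation with the code -/
noncomputable def corr (Om : Finset (I → A)) (F : MvPolynomial (I × A) ℂ) : ℂ :=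
  ∑ s ∈ Om, starRingEnd ℂ (MvPolynomial.coeff (Pool.XP.ex s) F)

/-- the trace of the product of the two matrices -/
theorem trace_codeQ (ty : I → Bool) (Om : Finset (I → A)) (F : MvPolynomial (I × A) ℂ)
    {LU LV r E : ℕ} (hr : r = (univ.filter fun i : I => ty i = true).card)
    (hE : E = (univ.filter fun i : I => ty i = false).card) (h : r ≤ LU) :
    ((opM (rty ty) F LU LV (LU - r) (LV + E))ᴴ *
      opM (rty ty) (codeQ Om ℂ) LU LV (LU - r) (LV + E)).trace =
      (Fintype.card (Box (rty ty : I × A → Bool) (LU - r) LV) : ℂ) * corr Om F := by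
  classical
  have h1 := sum_entries (rty ty : I × A → Bool) LU LV r E
    (fun p => starRingEnd ℂ (MvPolynomial.coeff p F) * MvPolynomial.coeff p (codeQ Om ℂ))
    (Om.image Pool.XP.ex) (fun p hp => by
      rw [coeff_codeQ_eq_zero Om ℂ p fun s hs hsp => hp (mem_image.2 ⟨s, hs, hsp⟩), mul_zero])
  have h2 : ((opM (rty ty) F LU LV (LU - r) (LV + E))ᴴ *
      opM (rty ty) (codeQ Om ℂ) LU LV (LU - r) (LV + E)).trace =
      ∑ p ∈ Om.image Pool.XP.ex, (fib (rty ty : I × A → Bool) LU LV r E p).card •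
        (starRingEnd ℂ (MvPolynomial.coeff p F) * MvPolynomial.coeff p (codeQ Om ℂ)) := by
    rw [← h1, Matrix.trace, sum_comm]
    refine sum_congr rfl fun γ _ => ?_
    rw [Matrix.diag_apply, Matrix.mul_apply]
    refine sum_congr rfl fun α _ => ?_
    rw [Matrix.conjTranspose_apply]
    unfold opM
    split_ifs
    · rfl
    · rw [mul_zero]
  rw [h2, sum_image fun s _ t _ hst => Pool.XP.ex_injective hst]
  unfold corr
  rw [mul_sum]
  refine sum_congr rfl fun s hs => ?_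
  have e1 : (∑ l : I × A, if rty ty l then (Pool.XP.ex s) l else 0) = r := by
    rw [hr, ← Pool.XP.sum_ind_true (ty := ty) s]
    exact sum_congr rfl fun l _ => by rw [Pool.XP.ex_apply]
  have e2 : (∑ l : I × A, if rty ty l then 0 else (Pool.XP.ex s) l) = E := by
    rw [hE, ← Pool.XP.sum_ind_false (ty := ty) s]
    exact sum_congr rfl fun l _ => by rw [Pool.XP.ex_apply]
  rw [coeff_codeQ Om ℂ s hs, mul_one, nsmul_eq_mul,
    le_antisymm (card_fib_le _ LU LV r E (Pool.XP.ex s)) (le_card_fib _ h (Pool.XP.ex s) e1 e2)]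

/-- the Frobenius norm of the Gram matrix of the code -/
theorem fr_gram (ty : I → Bool) (Om : Finset (I → A)) (LU LV r E : ℕ) :
    fr (opM (rty ty) (codeQ Om ℂ) LU LV (LU - r) (LV + E) *
      (opM (rty ty) (codeQ Om ℂ) LU LV (LU - r) (LV + E))ᴴ) =
    ∑ a : Box (rty ty : I × A → Bool) LU LV, ∑ a' : Box (rty ty : I × A → Bool) LU LV,
      (∑ g : Box (rty ty : I × A → Bool) (LU - r) (LV + E),
        opM (rty ty) (codeQ Om ℝ) LU LV (LU - r) (LV + E) a g *
          opM (rty ty) (codeQ Om ℝ) LU LV (LU - r) (LV + E) a' g) ^ 2 := by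
  have h1 := opM_map (rty ty : I × A → Bool) Complex.ofRealHom (codeQ Om ℝ) LU LV (LU - r) (LV + E)
  rw [map_codeQ] at h1
  unfold fr
  refine sum_congr rfl fun a _ => sum_congr rfl fun a' _ => ?_
  rw [Matrix.mul_apply, ← h1]
  have h2 : ∑ g : Box (rty ty : I × A → Bool) (LU - r) (LV + E),
      (opM (rty ty) (codeQ Om ℝ) LU LV (LU - r) (LV + E)).map (⇑Complex.ofRealHom) a g *
        ((opM (rty ty) (codeQ Om ℝ) LU LV (LU - r) (LV + E)).map (⇑Complex.ofRealHom))ᴴ g a' =
      ((∑ g : Box (rty ty : I × A → Bool) (LU - r) (LV + E),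
        opM (rty ty) (codeQ Om ℝ) LU LV (LU - r) (LV + E) a g *
          opM (rty ty) (codeQ Om ℝ) LU LV (LU - r) (LV + E) a' g : ℝ) : ℂ) := by
    rw [Complex.ofReal_sum]
    refine sum_congr rfl fun g _ => ?_
    rw [Matrix.conjTranspose_apply, Matrix.map_apply, Matrix.map_apply, Complex.ofReal_mul]
    congr 1
    exact Complex.conj_ofReal _
  rw [h2, Complex.norm_real, Real.norm_eq_abs, sq_abs]

theorem ZB_nonneg (ty : I → Bool) (Om : Finset (I → A)) {oU oV : ℝ} (h0U : 0 ≤ oU)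
    (h0V : 0 ≤ oV) : 0 ≤ ZB ty Om oU oV := by
  unfold ZB
  exact sum_nonneg fun _ _ => sum_nonneg fun _ _ => sum_nonneg fun _ _ => by positivity

/-- the number of the 4-cycles -/
theorem cycles_le (ty : I → Bool) (Om : Finset (I → A)) {LU LV r : ℕ}
    (hr : r = (univ.filter fun i : I => ty i = true).card) (h2 : 2 * r ≤ LU)
    {oU oV : ℝ} (h0U : 0 ≤ oU) (h0V : 0 ≤ oV) (h1U : 1 ≤ nU (rty ty : I × A → Bool))
    (h1V : 1 ≤ nV (rty ty : I × A → Bool))
    (hoU : (nU (rty ty : I × A → Bool) : ℝ) + LU - r ≤ oU * (LU - r + 1))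
    (hoV : (LV : ℝ) ≤ oV * (nV (rty ty : I × A → Bool) + LV - 1)) {R : ℝ} (hR0 : 0 ≤ R)
    (hR : R ≤ ∑ s ∈ Om, ∑ t ∈ Om,
      ∑ B ∈ (univ : Finset (Finset I)).filter (fun B => mixB B s t ∈ Om ∧ mixB B t s ∈ Om),
        (if (B.filter fun i => ty i = false).card ≤ LV then
          (((nU (rty ty : I × A → Bool)).multichoose
            (LU - r - (r - (B.filter fun i => ty i = true).card)) : ℝ) *
            (nV (rty ty : I × A → Bool)).multichoose
              (LV - (B.filter fun i => ty i = false).card)) else 0)) :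
    (((nU (rty ty : I × A → Bool)).multichoose LU : ℝ) *
      (nV (rty ty : I × A → Bool)).multichoose LV) * R ≤
      (((nU (rty ty : I × A → Bool)).multichoose (LU - r) : ℝ) *
        (nV (rty ty : I × A → Bool)).multichoose LV) ^ 2 * ZB ty Om oU oV := by
  set D1 : ℝ := ((nU (rty ty : I × A → Bool)).multichoose (LU - r) : ℝ) *
    (nV (rty ty : I × A → Bool)).multichoose LV with hD1
  have hZ := ZB_nonneg ty Om h0U h0V
  rcases hR0.eq_or_lt with h | h
  · rw [← h, mul_zero]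
    positivity
  have hOm : 0 < (Om.card : ℝ) := by
    rw [Nat.cast_pos, card_pos]
    by_contra hne
    rw [not_nonempty_iff_eq_empty] at hne
    rw [hne, sum_empty] at hR
    linarith
  have hOm2 : 0 < (Om.card : ℝ) ^ 2 := by positivity
  have h3 := code_assemble ty Om hr h2 h0V h1U h1V hoU hoV (rk := (Om.card * D1) ^ 2 / R)
    (P := Om.card * D1) (R := R) (by positivity) (by
      rw [div_mul_cancel₀ _ h.ne']) le_rfl hR
  have h4 : ((((nU (rty ty : I × A → Bool)).multichoose LU : ℝ) *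
      (nV (rty ty : I × A → Bool)).multichoose LV) * R) * (Om.card : ℝ) ^ 2 ≤
      (D1 ^ 2 * ZB ty Om oU oV) * (Om.card : ℝ) ^ 2 := by
    have h5 := mul_le_mul_of_nonneg_right h3 h.le
    have h6 : (Om.card * D1) ^ 2 / R * ZB ty Om oU oV * R =
        (D1 ^ 2 * ZB ty Om oU oV) * (Om.card : ℝ) ^ 2 := by
      field_simp
    rw [h6] at h5
    linarith
  exact le_of_mul_le_mul_right h4 hOm2

/-- **row G2** -/
theorem code_corr (ty : I → Bool) (Om : Finset (I → A)) (F : MvPolynomial (I × A) ℂ)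
    {LU LV r E : ℕ}
    (hr : r = (univ.filter fun i : I => ty i = true).card)
    (hE : E = (univ.filter fun i : I => ty i = false).card) (h2 : 2 * r ≤ LU)
    {oU oV : ℝ} (h0U : 0 ≤ oU) (h0V : 0 ≤ oV) (h1U : 1 ≤ nU (rty ty : I × A → Bool))
    (h1V : 1 ≤ nV (rty ty : I × A → Bool))
    (hoU : (nU (rty ty : I × A → Bool) : ℝ) + LU - r ≤ oU * (LU - r + 1))
    (hoV : (LV : ℝ) ≤ oV * (nV (rty ty : I × A → Bool) + LV - 1)) :
    (((nU (rty ty : I × A → Bool)).multichoose LU *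
      (nV (rty ty : I × A → Bool)).multichoose LV : ℕ) : ℝ) * ‖corr Om F‖ ^ 4 ≤
      ((opM (rty ty) F LU LV (LU - r) (LV + E)).rank : ℝ) * l2 F ^ 2 * ZB ty Om oU oV := by
  classical
  set rk : ℝ := ((opM (rty ty) F LU LV (LU - r) (LV + E)).rank : ℝ) with hrk
  have hrk0 : 0 ≤ rk := Nat.cast_nonneg _
  have hrob := robust (opM (rty ty) F LU LV (LU - r) (LV + E))
    (opM (rty ty) (codeQ Om ℂ) LU LV (LU - r) (LV + E))
  rw [trace_codeQ ty Om F hr hE (by omega), fr_gram ty Om LU LV r E, norm_mul,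
    Complex.norm_natCast, card_box] at hrob
  have hC1 := C1 ty Om LU LV r E hr
  obtain ⟨R, hR⟩ : ∃ R : ℝ, R = ∑ a : Box (rty ty : I × A → Bool) LU LV,
      ∑ a' : Box (rty ty : I × A → Bool) LU LV,
      (∑ g : Box (rty ty : I × A → Bool) (LU - r) (LV + E),
        opM (rty ty) (codeQ Om ℝ) LU LV (LU - r) (LV + E) a g *
          opM (rty ty) (codeQ Om ℝ) LU LV (LU - r) (LV + E) a' g) ^ 2 := ⟨_, rfl⟩
  rw [← hR] at hrob hC1
  have hR0 : 0 ≤ R := by
    rw [hR]
    exact sum_nonneg fun _ _ => sum_nonneg fun _ _ => sq_nonneg _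
  have hcyc := cycles_le ty Om hr h2 h0U h0V h1U h1V hoU hoV hR0 (hC1.trans (le_of_eq (by
    refine Finset.sum_congr rfl fun s _ => Finset.sum_congr rfl fun t _ =>
      Finset.sum_congr ?_ fun B _ => ?_
    · congr
    · rw [card_box]
      push_cast
      rfl)))
  have hfr := fr_opM_le (rty ty : I × A → Bool) F LU LV r E
  rw [card_box] at hfr
  push_cast at hrob hfr ⊢
  obtain ⟨m, hm⟩ : ∃ m : ℝ, m = ((nU (rty ty : I × A → Bool)).multichoose (LU - r) : ℝ) *
    (nV (rty ty : I × A → Bool)).multichoose LV := ⟨_, rfl⟩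
  rw [← hm] at hrob hfr hcyc
  obtain ⟨D0, hD0⟩ : ∃ D0 : ℝ, D0 = ((nU (rty ty : I × A → Bool)).multichoose LU : ℝ) *
    (nV (rty ty : I × A → Bool)).multichoose LV := ⟨_, rfl⟩
  rw [← hD0] at hcyc ⊢
  have hD00 : 0 ≤ D0 := by
    rw [hD0]
    positivity
  have hm0 : 0 < m := by
    rw [hm]
    have e1 := mc_pos h1U (LU - r)
    have e2 := mc_pos h1V LV
    exact_mod_cast Nat.mul_pos e1 e2
  have hl : 0 ≤ l2 F := l2_nonneg F
  have hfr0 : 0 ≤ fr (opM (rty ty) F LU LV (LU - r) (LV + E)) := fr_nonneg _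
  have hfr2 : fr (opM (rty ty) F LU LV (LU - r) (LV + E)) ^ 2 ≤ (m * l2 F) ^ 2 :=
    pow_le_pow_left₀ hfr0 hfr 2
  have h5 : m ^ 4 * (D0 * ‖corr Om F‖ ^ 4) ≤ m ^ 4 * (rk * l2 F ^ 2 * ZB ty Om oU oV) := by
    calc m ^ 4 * (D0 * ‖corr Om F‖ ^ 4) = D0 * (m * ‖corr Om F‖) ^ 4 := by ring
      _ ≤ D0 * (rk * fr (opM (rty ty) F LU LV (LU - r) (LV + E)) ^ 2 * R) :=
          mul_le_mul_of_nonneg_left hrob hD00
      _ = (rk * (D0 * R)) * fr (opM (rty ty) F LU LV (LU - r) (LV + E)) ^ 2 := by ring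
      _ ≤ (rk * (D0 * R)) * (m * l2 F) ^ 2 := mul_le_mul_of_nonneg_left hfr2 (by positivity)
      _ = (rk * (m * l2 F) ^ 2) * (D0 * R) := by ring
      _ ≤ (rk * (m * l2 F) ^ 2) * (m ^ 2 * ZB ty Om oU oV) :=
          mul_le_mul_of_nonneg_left hcyc (by positivity)
      _ = _ := by ring
  exact le_of_mul_le_mul_left h5 (by positivity)

end words

end Pool.XG
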