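import Pool.Agent.XG.Defs

/-!
# XG, row G4: Parseval on the roots of unity, and the correlation
-/

set_option autoImplicit false

namespace Pool.XG

open Finset MvPolynomial

theorem l2_eq {L : Type} (F : MvPolynomial L ℂ) {U : Finset (L →₀ ℕ)} (hU : F.support ⊆ U) :
    l2 F = ∑ p ∈ U, ‖coeff p F‖ ^ 2 := by
  rw [l2]
  refine sum_subset hU fun p _ hp => ?_
  rw [notMem_support_iff.1 hp]
  simp

theorem l2_nonneg {L : Type} (F : MvPolynomial L ℂ) : 0 ≤ l2 F :=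
  sum_nonneg fun _ _ => by positivity

theorem sum_roots {M : ℕ} {ζ : ℂ} (hζ : IsPrimitiveRoot ζ M) (a b : ℕ) (ha : a < M) (hb : b < M) :
    ∑ k : Fin M, (ζ ^ (k : ℕ)) ^ a * starRingEnd ℂ ((ζ ^ (k : ℕ)) ^ b) =
      if a = b then (M : ℂ) else 0 := by
  have hM : M ≠ 0 := by omega
  have hn : ‖ζ‖ = 1 := hζ.norm'_eq_one hM
  have hconj : ∀ j : ℕ, ζ ^ j * starRingEnd ℂ (ζ ^ j) = 1 := by
    intro j
    rw [Complex.mul_conj, Complex.normSq_eq_norm_sq, norm_pow, hn]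
    simp
  have h1 : ∀ k : Fin M, (ζ ^ (k : ℕ)) ^ a * starRingEnd ℂ ((ζ ^ (k : ℕ)) ^ b) =
      (ζ ^ a * starRingEnd ℂ (ζ ^ b)) ^ (k : ℕ) := by
    intro k
    rw [mul_pow, ← map_pow, ← pow_mul, ← pow_mul, ← pow_mul, ← pow_mul, mul_comm (k : ℕ) a,
      mul_comm (k : ℕ) b]
  simp only [h1]
  rw [Fin.sum_univ_eq_sum_range (fun k => (ζ ^ a * starRingEnd ℂ (ζ ^ b)) ^ k)]
  split_ifs with hab
  · subst hab
    rw [hconj]
    simp
  · have h2 : ζ ^ a * starRingEnd ℂ (ζ ^ b) ≠ 1 := by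
      intro h3
      have h4 : ζ ^ a = ζ ^ b := by
        have h5 : (starRingEnd ℂ (ζ ^ b)) ≠ 0 := right_ne_zero_of_mul_eq_one h3
        exact mul_right_cancel₀ h5 (h3.trans (hconj b).symm)
      exact hab (hζ.pow_inj ha hb h4)
    have h3 : (ζ ^ a * starRingEnd ℂ (ζ ^ b)) ^ M = 1 := by
      rw [mul_pow, ← map_pow, ← pow_mul, ← pow_mul, mul_comm a M, mul_comm b M, pow_mul, pow_mul,
        hζ.pow_eq_one]
      simp
    have h4 := geom_sum_mul (ζ ^ a * starRingEnd ℂ (ζ ^ b)) M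
    rw [h3, sub_self] at h4
    exact (mul_eq_zero.1 h4).resolve_right (sub_ne_zero.2 h2)

/-- Parseval on the `M`-th roots of unity -/
theorem parseval {L : Type} [Fintype L] [DecidableEq L] {M : ℕ} {ζ : ℂ} (hζ : IsPrimitiveRoot ζ M)
    (F : MvPolynomial L ℂ) (hM : ∀ p ∈ F.support, ∀ l, p l < M) :
    ∑ k : L → Fin M, ‖eval (fun l => ζ ^ (k l : ℕ)) F‖ ^ 2 = (M : ℝ) ^ Fintype.card L * l2 F := by
  have h1 : ∀ p ∈ F.support, ∀ q ∈ F.support,
      ∑ k : L → Fin M, (∏ l, (ζ ^ (k l : ℕ)) ^ p l) * starRingEnd ℂ (∏ l, (ζ ^ (k l : ℕ)) ^ q l) =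
        if p = q then (M : ℂ) ^ Fintype.card L else 0 := by
    intro p hp q hq
    have h2 : ∀ k : L → Fin M, (∏ l, (ζ ^ (k l : ℕ)) ^ p l) *
        starRingEnd ℂ (∏ l, (ζ ^ (k l : ℕ)) ^ q l) =
        ∏ l, ((ζ ^ (k l : ℕ)) ^ p l * starRingEnd ℂ ((ζ ^ (k l : ℕ)) ^ q l)) := by
      intro k
      rw [map_prod, prod_mul_distrib]
    simp only [h2]
    have h3 := Finset.prod_univ_sum (fun _ : L => (univ : Finset (Fin M)))
      (fun (l : L) (k : Fin M) => (ζ ^ (k : ℕ)) ^ p l * starRingEnd ℂ ((ζ ^ (k : ℕ)) ^ q l))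
    rw [Fintype.piFinset_univ] at h3
    rw [← h3]
    simp only [fun l => sum_roots hζ (p l) (q l) (hM p hp l) (hM q hq l)]
    split_ifs with hpq
    · subst hpq
      simp
    · obtain ⟨l, hl⟩ := Finsupp.ne_iff.1 hpq
      exact prod_eq_zero (mem_univ l) (if_neg hl)
  have h2 : ∀ x : L → ℂ, ((‖eval x F‖ ^ 2 : ℝ) : ℂ) =
      ∑ p ∈ F.support, ∑ q ∈ F.support, coeff p F * starRingEnd ℂ (coeff q F) *
        ((∏ l, x l ^ p l) * starRingEnd ℂ (∏ l, x l ^ q l)) := by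
    intro x
    rw [← Complex.normSq_eq_norm_sq, ← Complex.mul_conj, eval_eq', map_sum, sum_mul_sum]
    refine sum_congr rfl fun p _ => sum_congr rfl fun q _ => ?_
    rw [map_mul]
    ring
  have h3 : ((∑ k : L → Fin M, ‖eval (fun l => ζ ^ (k l : ℕ)) F‖ ^ 2 : ℝ) : ℂ) =
      (((M : ℝ) ^ Fintype.card L * l2 F : ℝ) : ℂ) := by
    rw [Complex.ofReal_sum]
    simp only [h2]
    rw [sum_comm]
    simp only [l2, Complex.ofReal_mul, Complex.ofReal_sum, Complex.ofReal_pow,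
      Complex.ofReal_natCast, mul_sum]
    refine sum_congr rfl fun p hp => ?_
    rw [sum_comm]
    have h4 : ∀ q ∈ F.support, ∑ k : L → Fin M, coeff p F * starRingEnd ℂ (coeff q F) *
        ((∏ l, (ζ ^ (k l : ℕ)) ^ p l) * starRingEnd ℂ (∏ l, (ζ ^ (k l : ℕ)) ^ q l)) =
        if p = q then coeff p F * starRingEnd ℂ (coeff q F) * (M : ℂ) ^ Fintype.card L else 0 := by
      intro q hq
      rw [← mul_sum, h1 p hp q hq]
      split_ifs <;> simp
    rw [sum_congr rfl h4, sum_ite_eq, if_pos hp, Complex.mul_conj, Complex.normSq_eq_norm_sq]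
    push_cast
    ring
  exact_mod_cast h3

/-- the average of the error, and the correlation (AM-GM): if `F` is closer to `γ G` than
`(1 - τ) |γ|² ‖G‖²`, then the coefficients of `F` and `G` are correlated -/
theorem corr_of_close {L : Type} [Fintype L] (F G : MvPolynomial L ℂ) (γ : ℝ) {τ : ℝ}
    (hτ : 0 ≤ τ) (h : l2 (F - C (γ : ℂ) * G) < (1 - τ) * (γ ^ 2 * l2 G)) :
    0 < l2 F ∧ τ * l2 G * l2 F ≤ ‖∑ p ∈ G.support, starRingEnd ℂ (coeff p F) * coeff p G‖ ^ 2 := by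
  classical
  set U : Finset (L →₀ ℕ) := F.support ∪ G.support ∪ (F - C (γ : ℂ) * G).support with hU
  have hF : l2 F = ∑ p ∈ U, ‖coeff p F‖ ^ 2 := l2_eq F (by
    intro p hp; simp only [hU, mem_union]; exact Or.inl (Or.inl hp))
  have hG : l2 G = ∑ p ∈ U, ‖coeff p G‖ ^ 2 := l2_eq G (by
    intro p hp; simp only [hU, mem_union]; exact Or.inl (Or.inr hp))
  have hD : l2 (F - C (γ : ℂ) * G) = ∑ p ∈ U, ‖coeff p (F - C (γ : ℂ) * G)‖ ^ 2 := l2_eq _ (by
    intro p hp; simp only [hU, mem_union]; exact Or.inr hp)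
  set z : ℂ := ∑ p ∈ G.support, starRingEnd ℂ (coeff p F) * coeff p G with hz
  have hz' : z = ∑ p ∈ U, starRingEnd ℂ (coeff p F) * coeff p G := by
    rw [hz]
    refine sum_subset (by intro p hp; simp only [hU, mem_union]; exact Or.inl (Or.inr hp))
      fun p _ hp => ?_
    rw [notMem_support_iff.1 hp, mul_zero]
  have h1 : l2 (F - C (γ : ℂ) * G) = l2 F - 2 * γ * z.re + γ ^ 2 * l2 G := by
    rw [hD, hF, hG, hz', Complex.re_sum, mul_sum, mul_sum, ← sum_sub_distrib, ← sum_add_distrib]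
    refine sum_congr rfl fun p _ => ?_
    rw [coeff_sub, coeff_C_mul, ← Complex.normSq_eq_norm_sq, ← Complex.normSq_eq_norm_sq,
      ← Complex.normSq_eq_norm_sq, Complex.normSq_sub, Complex.normSq_mul, Complex.normSq_ofReal]
    simp only [Complex.mul_re, Complex.conj_re, Complex.conj_im, map_mul, Complex.conj_ofReal,
      Complex.ofReal_re, Complex.ofReal_im, Complex.mul_im]
    ring
  have hF0 := l2_nonneg F
  have hG0 := l2_nonneg G
  have h2 : l2 F + τ * (γ ^ 2 * l2 G) < 2 * γ * z.re := by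
    rw [h1] at h
    linarith
  have h3 : γ * z.re ≤ |γ| * ‖z‖ := by
    calc γ * z.re ≤ |γ * z.re| := le_abs_self _
      _ = |γ| * |z.re| := abs_mul _ _
      _ ≤ |γ| * ‖z‖ := mul_le_mul_of_nonneg_left (Complex.abs_re_le_norm z) (abs_nonneg _)
  have h4 : 0 ≤ τ * (γ ^ 2 * l2 G) := by positivity
  have h5 : 0 < |γ| * ‖z‖ := by linarith
  have hγ : 0 < |γ| := by
    rcases (abs_nonneg γ).eq_or_lt with h6 | h6
    · rw [← h6, zero_mul] at h5
      exact absurd h5 (lt_irrefl _)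
    · exact h6
  have hzpos : 0 < ‖z‖ := by
    rcases (norm_nonneg z).eq_or_lt with h6 | h6
    · rw [← h6, mul_zero] at h5
      exact absurd h5 (lt_irrefl _)
    · exact h6
  refine ⟨?_, ?_⟩
  · rcases hF0.eq_or_lt with h6 | h6
    · exfalso
      have h7 : z = 0 := by
        rw [hz']
        refine sum_eq_zero fun p hp => ?_
        rw [hF] at h6
        have h8 := (sum_eq_zero_iff_of_nonneg (fun q _ => by positivity)).1 h6.symm p hp
        have h9 : coeff p F = 0 := by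
          rw [← norm_eq_zero]
          exact pow_eq_zero_iff (two_ne_zero) |>.1 h8
        rw [h9, map_zero, zero_mul]
      rw [h7, norm_zero] at hzpos
      exact lt_irrefl _ hzpos
    · exact h6
  · have h6 : l2 F + τ * (γ ^ 2 * l2 G) < 2 * (|γ| * ‖z‖) := by linarith
    have h7 : 4 * (l2 F * (τ * (γ ^ 2 * l2 G))) ≤ (l2 F + τ * (γ ^ 2 * l2 G)) ^ 2 := by
      nlinarith [sq_nonneg (l2 F - τ * (γ ^ 2 * l2 G))]
    have h8 : (l2 F + τ * (γ ^ 2 * l2 G)) ^ 2 ≤ (2 * (|γ| * ‖z‖)) ^ 2 :=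
      pow_le_pow_left₀ (by linarith) h6.le 2
    have h9 : (2 * (|γ| * ‖z‖)) ^ 2 = 4 * (γ ^ 2 * ‖z‖ ^ 2) := by
      rw [mul_pow, mul_pow, sq_abs]
      ring
    have h10 : 0 < γ ^ 2 := by
      rw [← sq_abs]
      positivity
    have h11 : γ ^ 2 * (τ * l2 G * l2 F) ≤ γ ^ 2 * ‖z‖ ^ 2 := by
      nlinarith
    exact le_of_mul_le_mul_left h11 h10

end Pool.XG
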