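import Mathlib

/-!
# XG, row G1: a robust trace inequality

`|<A, B>| ^ 4 ≤ rank A * ‖A‖ ^ 4 * ‖B * Bᴴ‖ ^ 2` for complex matrices (Frobenius norms).
-/

set_option autoImplicit false

namespace Pool.XG

open Finset Matrix
open scoped ComplexOrder

variable {m n : Type} [Fintype m] [Fintype n] [DecidableEq m]

/-- the square of the Frobenius norm -/
noncomputable def fr {m n : Type} [Fintype m] [Fintype n] (A : Matrix m n ℂ) : ℝ :=
  ∑ i, ∑ j, ‖A i j‖ ^ 2

theorem fr_nonneg {m n : Type} [Fintype m] [Fintype n] (A : Matrix m n ℂ) : 0 ≤ fr A :=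
  sum_nonneg fun _ _ => sum_nonneg fun _ _ => sq_nonneg _

theorem trace_conjTranspose_mul_self {m n : Type} [Fintype m] [Fintype n] (A : Matrix m n ℂ) :
    (Aᴴ * A).trace = (fr A : ℂ) := by
  rw [trace, fr]
  push_cast
  rw [sum_comm]
  refine sum_congr rfl fun j _ => ?_
  rw [diag_apply, mul_apply]
  refine sum_congr rfl fun i _ => ?_
  rw [conjTranspose_apply]
  exact Complex.conj_mul' (A i j)

/-- Cauchy-Schwarz -/
theorem norm_trace_sq_le {m n : Type} [Fintype m] [Fintype n] (A B : Matrix m n ℂ) :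
    ‖(Aᴴ * B).trace‖ ^ 2 ≤ fr A * fr B := by
  have h1 : ‖(Aᴴ * B).trace‖ ≤ ∑ p : n × m, ‖A p.2 p.1‖ * ‖B p.2 p.1‖ := by
    rw [trace, Fintype.sum_prod_type]
    refine (norm_sum_le _ _).trans (sum_le_sum fun j _ => ?_)
    rw [diag_apply, mul_apply]
    refine (norm_sum_le _ _).trans (sum_le_sum fun i _ => ?_)
    rw [norm_mul, conjTranspose_apply, norm_star]
  have h2 := sum_mul_sq_le_sq_mul_sq (univ : Finset (n × m)) (fun p => ‖A p.2 p.1‖)
    (fun p => ‖B p.2 p.1‖)
  have e : ∀ C : Matrix m n ℂ, ∑ p : n × m, ‖C p.2 p.1‖ ^ 2 = fr C := by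
    intro C
    rw [Fintype.sum_prod_type, sum_comm]
    rfl
  rw [e, e] at h2
  exact (pow_le_pow_left₀ (norm_nonneg _) h1 2).trans h2

/-- the projection on the range of a matrix -/
theorem exists_proj (A : Matrix m n ℂ) : ∃ P : Matrix m m ℂ, Pᴴ = P ∧ P * P = P ∧ P * A = A ∧
    P.trace = (A.rank : ℂ) := by
  have hG : (A * Aᴴ).IsHermitian := isHermitian_mul_conjTranspose_self A
  set U : Matrix m m ℂ := (hG.eigenvectorUnitary : Matrix m m ℂ) with hU
  have hU1 : star U * U = 1 := Unitary.coe_star_mul_self _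
  have hU2 : U * star U = 1 := Unitary.coe_mul_star_self _
  set D : Matrix m m ℂ := diagonal fun i => if hG.eigenvalues i ≠ 0 then (1 : ℂ) else 0 with hD
  have hspec : A * Aᴴ = U * diagonal (fun i => (hG.eigenvalues i : ℂ)) * star U := by
    conv_lhs => rw [hG.spectral_theorem, Unitary.conjStarAlgAut_apply]
    rfl
  have hDD : D * D = D := by
    rw [hD, diagonal_mul_diagonal]
    congr 1
    funext i
    split_ifs <;> simp
  have hDs : star D = D := by
    rw [hD, star_eq_conjTranspose, diagonal_conjTranspose]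
    congr 1
    funext i
    show star (if hG.eigenvalues i ≠ 0 then (1 : ℂ) else 0) = _
    split_ifs <;> simp
  have hDE : D * diagonal (fun i => (hG.eigenvalues i : ℂ)) =
      diagonal (fun i => (hG.eigenvalues i : ℂ)) := by
    rw [hD, diagonal_mul_diagonal]
    congr 1
    funext i
    by_cases h : hG.eigenvalues i = 0
    · simp [h]
    · simp [h]
  refine ⟨U * D * star U, ?_, ?_, ?_, ?_⟩
  · rw [← star_eq_conjTranspose, star_mul, star_mul, star_star, hDs, Matrix.mul_assoc]
  · calc U * D * star U * (U * D * star U) = U * D * (star U * U) * D * star U := by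
          simp only [Matrix.mul_assoc]
      _ = U * (D * D) * star U := by rw [hU1, Matrix.mul_one, Matrix.mul_assoc U]
      _ = _ := by rw [hDD]
  · have h1 : (U * D * star U) * (A * Aᴴ) = A * Aᴴ := by
      rw [hspec]
      calc U * D * star U * (U * diagonal (fun i => (hG.eigenvalues i : ℂ)) * star U) =
          U * (D * (star U * U) * diagonal (fun i => (hG.eigenvalues i : ℂ))) * star U := by
            simp only [Matrix.mul_assoc]
        _ = _ := by rw [hU1, Matrix.mul_one, hDE]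
    have h2 : ((U * D * star U) * A - A) * Aᴴ = 0 := by
      rw [Matrix.sub_mul, Matrix.mul_assoc, h1, sub_self]
    have h3 : ((U * D * star U) * A - A) * ((U * D * star U) * A - A)ᴴ = 0 := by
      rw [conjTranspose_sub, conjTranspose_mul, Matrix.mul_sub, ← Matrix.mul_assoc, h2,
        Matrix.zero_mul, sub_self]
    have h4 := Matrix.self_mul_conjTranspose_eq_zero.1 h3
    exact sub_eq_zero.1 h4
  · rw [trace_mul_cycle, hU1, Matrix.one_mul, hD, trace_diagonal,
      ← rank_self_mul_conjTranspose, hG.rank_eq_card_non_zero_eigs, Fintype.card_subtype,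
      card_filter]
    push_cast
    rfl

/-- **(G1)** the robust trace inequality -/
theorem robust (A B : Matrix m n ℂ) :
    ‖(Aᴴ * B).trace‖ ^ 4 ≤ A.rank * fr A ^ 2 * fr (B * Bᴴ) := by
  obtain ⟨P, hP1, hP2, hP3, hP4⟩ := exists_proj A
  have h1 : (Aᴴ * B).trace = (Aᴴ * (P * B)).trace := by
    conv_lhs => rw [← hP3, conjTranspose_mul, hP1]
    rw [Matrix.mul_assoc]
  have h2 := norm_trace_sq_le A (P * B)
  have h3 : (fr (P * B) : ℂ) = (Pᴴ * (B * Bᴴ)).trace := by
    rw [← trace_conjTranspose_mul_self, conjTranspose_mul, hP1]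
    calc (Bᴴ * P * (P * B)).trace = (Bᴴ * (P * P) * B).trace := by
          simp only [Matrix.mul_assoc]
      _ = (B * (Bᴴ * P)).trace := by rw [hP2, trace_mul_comm]
      _ = (P * (B * Bᴴ)).trace := by rw [← Matrix.mul_assoc, trace_mul_comm]
  have h4 : fr (P * B) ^ 2 ≤ A.rank * fr (B * Bᴴ) := by
    have h5 := norm_trace_sq_le P (B * Bᴴ)
    rw [← h3] at h5
    have h6 : fr P = A.rank := by
      have h7 := trace_conjTranspose_mul_self P
      rw [hP1, hP2, hP4] at h7
      exact_mod_cast h7.symm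
    rw [h6] at h5
    have h8 : ‖((fr (P * B) : ℝ) : ℂ)‖ ^ 2 = fr (P * B) ^ 2 := by
      rw [Complex.norm_real, Real.norm_eq_abs, sq_abs]
    rwa [h8] at h5
  rw [← h1] at h2
  calc ‖(Aᴴ * B).trace‖ ^ 4 = (‖(Aᴴ * B).trace‖ ^ 2) ^ 2 := by ring
    _ ≤ (fr A * fr (P * B)) ^ 2 := pow_le_pow_left₀ (by positivity) h2 2
    _ = fr A ^ 2 * fr (P * B) ^ 2 := by ring
    _ ≤ fr A ^ 2 * (A.rank * fr (B * Bᴴ)) := mul_le_mul_of_nonneg_left h4 (by positivity)
    _ = _ := by ring

end Pool.XG
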