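import Pool.Agent.XP.Count
import Pool.Agent.XG.Trace
import Pool.Agent.XG.Parseval

/-!
# XG, row G2: the matrix of a polynomial is an isometry

Every monomial of the right bidegree fills the same number of entries.
-/

set_option autoImplicit false
set_option linter.unusedSectionVars false

namespace Pool.XG

open Finset Pool.XD Pool.XP

section fiber

variable {L : Type} [Fintype L] (ty : L → Bool)

/-- the common part of the two exponent vectors -/
def low {a b a' b' : ℕ} (x : Box ty a b × Box ty a' b') (l : L) : ℕ :=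
  if ty l then x.2.1 l else x.1.1 l

theorem low_mem {a b a' b' : ℕ} (x : Box ty a b × Box ty a' b') :
    (∑ l, if ty l then low ty x l else 0) = a' ∧ (∑ l, if ty l then 0 else low ty x l) = b := by
  constructor
  · refine Eq.trans (sum_congr rfl fun l _ => ?_) x.2.2.1
    unfold low
    split_ifs <;> rfl
  · refine Eq.trans (sum_congr rfl fun l _ => ?_) x.1.2.2
    unfold low
    split_ifs <;> rfl

theorem low_inj {a b a' b' : ℕ} {p : L →₀ ℕ} {x y : Box ty a b × Box ty a' b'}
    (hx : Adm ty x.1.1 x.2.1 ∧ gap ty x.1.1 x.2.1 = p)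
    (hy : Adm ty y.1.1 y.2.1 ∧ gap ty y.1.1 y.2.1 = p) (h : low ty x = low ty y) : x = y := by
  have key : ∀ l, x.1.1 l = y.1.1 l ∧ x.2.1 l = y.2.1 l := by
    intro l
    have h1 := hx.1 l
    have h2 := hy.1 l
    have h3 : (if ty l then x.1.1 l - x.2.1 l else x.2.1 l - x.1.1 l) = p l :=
      DFunLike.congr_fun hx.2 l
    have h4 : (if ty l then y.1.1 l - y.2.1 l else y.2.1 l - y.1.1 l) = p l :=
      DFunLike.congr_fun hy.2 l
    have h5 : (if ty l then x.2.1 l else x.1.1 l) = if ty l then y.2.1 l else y.1.1 l :=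
      congrFun h l
    split_ifs at h1 h2 h3 h4 h5 <;> omega
  exact Prod.ext (Subtype.ext (funext fun l => (key l).1)) (Subtype.ext (funext fun l => (key l).2))

open Classical in
/-- the entries of a monomial -/
noncomputable def fib (LU LV r E : ℕ) (p : L →₀ ℕ) :
    Finset (Box ty LU LV × Box ty (LU - r) (LV + E)) :=
  univ.filter fun x => Adm ty x.1.1 x.2.1 ∧ gap ty x.1.1 x.2.1 = p

theorem card_fib_le (LU LV r E : ℕ) (p : L →₀ ℕ) :
    (fib ty LU LV r E p).card ≤ Fintype.card (Box ty (LU - r) LV) := by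
  classical
  rw [← Fintype.card_coe]
  refine Fintype.card_le_of_injective
    (fun x : {x // x ∈ fib ty LU LV r E p} => (⟨low ty x.1, low_mem ty x.1⟩ : Box ty (LU - r) LV))
    fun x y hxy => Subtype.ext ?_
  exact low_inj ty (mem_filter.1 x.2).2 (mem_filter.1 y.2).2 (congrArg Subtype.val hxy)

theorem le_card_fib {LU LV r E : ℕ} (hr : r ≤ LU) (p : L →₀ ℕ)
    (h1 : (∑ l, if ty l then p l else 0) = r) (h2 : (∑ l, if ty l then 0 else p l) = E) :
    Fintype.card (Box ty (LU - r) LV) ≤ (fib ty LU LV r E p).card := by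
  classical
  rw [← Fintype.card_coe]
  have e1 : ∀ δ : Box ty (LU - r) LV,
      (∑ l, if ty l then (if ty l then δ.1 l + p l else δ.1 l) else 0) = LU ∧
      (∑ l, if ty l then 0 else (if ty l then δ.1 l + p l else δ.1 l)) = LV := by
    intro δ
    constructor
    · have e : ∀ l, (if ty l then (if ty l then δ.1 l + p l else δ.1 l) else 0) =
          (if ty l then δ.1 l else 0) + (if ty l then p l else 0) := fun l => by
        split_ifs <;> rfl
      rw [sum_congr rfl fun l _ => e l, sum_add_distrib, δ.2.1, h1]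
      omega
    · have e : ∀ l, (if ty l then 0 else (if ty l then δ.1 l + p l else δ.1 l)) =
          (if ty l then 0 else δ.1 l) := fun l => by
        split_ifs <;> rfl
      rw [sum_congr rfl fun l _ => e l, δ.2.2]
  have e2 : ∀ δ : Box ty (LU - r) LV,
      (∑ l, if ty l then (if ty l then δ.1 l else δ.1 l + p l) else 0) = LU - r ∧
      (∑ l, if ty l then 0 else (if ty l then δ.1 l else δ.1 l + p l)) = LV + E := by
    intro δ
    constructor
    · have e : ∀ l, (if ty l then (if ty l then δ.1 l else δ.1 l + p l) else 0) =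
          (if ty l then δ.1 l else 0) := fun l => by
        split_ifs <;> rfl
      rw [sum_congr rfl fun l _ => e l, δ.2.1]
    · have e : ∀ l, (if ty l then 0 else (if ty l then δ.1 l else δ.1 l + p l)) =
          (if ty l then 0 else δ.1 l) + (if ty l then 0 else p l) := fun l => by
        split_ifs <;> rfl
      rw [sum_congr rfl fun l _ => e l, sum_add_distrib, δ.2.2, h2]
  refine Fintype.card_le_of_injective
    (fun δ : Box ty (LU - r) LV =>
      (⟨(⟨fun l => if ty l then δ.1 l + p l else δ.1 l, e1 δ⟩,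
        ⟨fun l => if ty l then δ.1 l else δ.1 l + p l, e2 δ⟩), mem_filter.2 ⟨mem_univ _, ?_⟩⟩ :
        {x // x ∈ fib ty LU LV r E p})) ?_
  · constructor
    · intro l
      show if ty l then (if ty l then δ.1 l else δ.1 l + p l) ≤
          (if ty l then δ.1 l + p l else δ.1 l)
        else (if ty l then δ.1 l + p l else δ.1 l) ≤ (if ty l then δ.1 l else δ.1 l + p l)
      split_ifs <;> omega
    · ext l
      show (if ty l then (if ty l then δ.1 l + p l else δ.1 l) -
          (if ty l then δ.1 l else δ.1 l + p l)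
        else (if ty l then δ.1 l else δ.1 l + p l) -
          (if ty l then δ.1 l + p l else δ.1 l)) = p l
      split_ifs <;> omega
  · intro δ δ' h
    apply Subtype.ext
    funext l
    have h3 := congrArg Subtype.val h
    have h4 : (if ty l then δ.1 l + p l else δ.1 l) = if ty l then δ'.1 l + p l else δ'.1 l :=
      congrFun (congrArg Subtype.val (congrArg Prod.fst h3)) l
    split_ifs at h4 <;> omega

/-- sums over the entries of the matrix -/
theorem sum_entries {M : Type} [AddCommMonoid M] (LU LV r E : ℕ) (f : (L →₀ ℕ) → M)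
    (S : Finset (L →₀ ℕ)) (hS : ∀ p, p ∉ S → f p = 0) :
    (∑ α : Box ty LU LV, ∑ γ : Box ty (LU - r) (LV + E),
      open Classical in if Adm ty α.1 γ.1 then f (gap ty α.1 γ.1) else 0) =
      ∑ p ∈ S, (fib ty LU LV r E p).card • f p := by
  classical
  rw [← Fintype.sum_prod_type' (f := fun (α : Box ty LU LV) (γ : Box ty (LU - r) (LV + E)) =>
    if Adm ty α.1 γ.1 then f (gap ty α.1 γ.1) else 0), ← sum_filter]
  rw [sum_comp (f := f) (g := fun x : Box ty LU LV × Box ty (LU - r) (LV + E) =>
    gap ty x.1.1 x.2.1)]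
  have h1 : ∀ p, ((univ.filter fun x : Box ty LU LV × Box ty (LU - r) (LV + E) =>
      Adm ty x.1.1 x.2.1).filter fun x => gap ty x.1.1 x.2.1 = p) = fib ty LU LV r E p := by
    intro p
    rw [filter_filter]
    unfold fib
    congr
  rw [sum_congr rfl fun p _ => by rw [h1 p]]
  rw [← sum_subset (s₁ := S.filter fun p => p ∈ (image (fun x : Box ty LU LV ×
    Box ty (LU - r) (LV + E) => gap ty x.1.1 x.2.1)
      (univ.filter fun x : Box ty LU LV × Box ty (LU - r) (LV + E) => Adm ty x.1.1 x.2.1)))
    (s₂ := S) (filter_subset _ _)]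
  · symm
    apply sum_subset_zero_on_sdiff
    · intro p hp
      exact (mem_filter.1 hp).2
    · intro p hp
      rw [mem_sdiff, mem_filter] at hp
      have : p ∉ S := fun h => hp.2 ⟨h, hp.1⟩
      rw [hS p this, smul_zero]
    · intro p _
      rfl
  · intro p hp hp'
    have h2 : fib ty LU LV r E p = ∅ := by
      rw [eq_empty_iff_forall_notMem]
      intro x hx
      have hx' := mem_filter.1 hx
      exact hp' (mem_filter.2 ⟨hp, mem_image.2 ⟨x, mem_filter.2 ⟨mem_univ _, hx'.2.1⟩, hx'.2.2⟩⟩)
    rw [h2, card_empty, zero_smul]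

/-- the Frobenius norm of the matrix -/
theorem fr_opM_le (F : MvPolynomial L ℂ) (LU LV r E : ℕ) :
    fr (opM ty F LU LV (LU - r) (LV + E)) ≤ Fintype.card (Box ty (LU - r) LV) * l2 F := by
  classical
  have h1 := sum_entries ty LU LV r E (fun p => ‖MvPolynomial.coeff p F‖ ^ 2) F.support
    (fun p hp => by
      show ‖MvPolynomial.coeff p F‖ ^ 2 = 0
      rw [MvPolynomial.notMem_support_iff.1 hp, norm_zero]
      norm_num)
  have h2 : fr (opM ty F LU LV (LU - r) (LV + E)) =
      ∑ p ∈ F.support, (fib ty LU LV r E p).card • ‖MvPolynomial.coeff p F‖ ^ 2 := by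
    rw [← h1]
    unfold fr opM
    refine sum_congr rfl fun α _ => sum_congr rfl fun γ _ => ?_
    split_ifs
    · rfl
    · rw [norm_zero]
      norm_num
  rw [h2]
  unfold l2
  rw [mul_sum]
  refine sum_le_sum fun p _ => ?_
  rw [nsmul_eq_mul]
  exact mul_le_mul_of_nonneg_right (Nat.cast_le.2 (card_fib_le ty LU LV r E p)) (sq_nonneg _)

end fiber

end Pool.XG
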