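import Pool.Agent.XG.Second

/-!
# XG: the distance of a circuit to the multiples of the permanent, sharper form
-/

set_option autoImplicit false

namespace Pool.XG

open Finset MvPolynomial MeasureTheory Pool.XGN Pool.XP

/-- the numbers -/
theorem fin_num {κ C₀ : ℝ} (hκ : 0 < κ) (hκ1 : κ ≤ 1) (hC : 1000 / κ ≤ C₀) {N m n : ℕ} (hN : 1 ≤ N)
    (h1 : 4 * N ≤ m) (h2 : m < 4 * N + 4) (hmn : m ≤ n) {W : ℝ}
    (hW : ((2 * N).factorial : ℝ) ≤ 4 ^ N * W) :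
    (Real.sqrt m / (C₀ * n)) ^ m * n.factorial ≤ 1 / 2 * (κ ^ N * W * (n - 4 * N).factorial) := by
  have hC0 : (1 : ℝ) ≤ C₀ := by
    refine le_trans ?_ hC
    rw [le_div_iff₀ hκ]
    linarith
  have hn1 : 1 ≤ n := by omega
  have hnr : (1 : ℝ) ≤ n := by exact_mod_cast hn1
  have hmr : (1 : ℝ) ≤ m := by exact_mod_cast (by omega : 1 ≤ m)
  have hs1 : Real.sqrt m ≤ m := by
    rw [Real.sqrt_le_left (by linarith)]
    nlinarith
  have hmn' : (m : ℝ) ≤ n := by exact_mod_cast hmn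
  have hb0 : 0 ≤ Real.sqrt m / (C₀ * n) := by positivity
  have hb1 : Real.sqrt m / (C₀ * n) ≤ 1 := by
    rw [div_le_one (by positivity)]
    nlinarith
  have h3 : (Real.sqrt m / (C₀ * n)) ^ m ≤ (Real.sqrt m / (C₀ * n)) ^ (4 * N) :=
    pow_le_pow_of_le_one hb0 hb1 h1
  have h4 : (Real.sqrt m / (C₀ * n)) ^ (4 * N) = (m : ℝ) ^ (2 * N) / (C₀ ^ (4 * N) * (n : ℝ) ^ (4 * N)) := by
    rw [div_pow, mul_pow, show 4 * N = 2 * (2 * N) by ring, pow_mul (Real.sqrt m),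
      Real.sq_sqrt (by positivity)]
  have h5 : (n.factorial : ℝ) ≤ (n : ℝ) ^ (4 * N) * (n - 4 * N).factorial := by
    have h6 := Nat.factorial_mul_descFactorial (n := n) (k := 4 * N) (by omega)
    have h7 : n.factorial ≤ n ^ (4 * N) * (n - 4 * N).factorial := by
      rw [← h6, mul_comm]
      exact Nat.mul_le_mul_right _ (Nat.descFactorial_le_pow _ _)
    exact_mod_cast h7
  have h8 : (m : ℝ) ^ (2 * N) ≤ (225 / 2) ^ N * ((2 * N).factorial : ℝ) := by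
    have h9 : (m : ℝ) ≤ 7 / 2 * ((2 * N : ℕ) : ℝ) := by
      have h10 : m ≤ 7 * N := by omega
      have h11 : (m : ℝ) ≤ 7 * N := by exact_mod_cast h10
      push_cast
      linarith
    have h12 : (((2 * N : ℕ) : ℝ)) ^ (2 * N) ≤ 3 ^ (2 * N) * ((2 * N).factorial : ℝ) := by
      have h13 := Real.pow_div_factorial_le_exp (((2 * N : ℕ) : ℝ)) (Nat.cast_nonneg _) (2 * N)
      rw [div_le_iff₀ (by exact_mod_cast Nat.factorial_pos _)] at h13
      refine h13.trans (mul_le_mul_of_nonneg_right ?_ (Nat.cast_nonneg _))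
      rw [show (((2 * N : ℕ) : ℝ)) = ((2 * N : ℕ) : ℝ) * 1 by ring, Real.exp_nat_mul]
      exact pow_le_pow_left₀ (Real.exp_pos 1).le Real.exp_one_lt_three.le _
    calc (m : ℝ) ^ (2 * N) ≤ (7 / 2 * ((2 * N : ℕ) : ℝ)) ^ (2 * N) :=
          pow_le_pow_left₀ (by positivity) h9 _
      _ = (7 / 2) ^ (2 * N) * ((2 * N : ℕ) : ℝ) ^ (2 * N) := by rw [mul_pow]
      _ ≤ (7 / 2) ^ (2 * N) * (3 ^ (2 * N) * ((2 * N).factorial : ℝ)) :=
          mul_le_mul_of_nonneg_left h12 (by positivity)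
      _ = (441 / 4) ^ N * ((2 * N).factorial : ℝ) := by
          rw [← mul_assoc, ← mul_pow, pow_mul]
          norm_num
      _ ≤ (225 / 2) ^ N * ((2 * N).factorial : ℝ) := by
          refine mul_le_mul_of_nonneg_right ?_ (Nat.cast_nonneg _)
          exact pow_le_pow_left₀ (by norm_num) (by norm_num) _
  have hC4 : 900 / κ ≤ C₀ ^ 4 := by
    have h14 : C₀ ≤ C₀ ^ 4 := le_self_pow₀ hC0 (by norm_num)
    have h15 : 900 / κ ≤ 1000 / κ := div_le_div_of_nonneg_right (by norm_num) hκ.le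
    linarith
  have h16 : (450 / κ) ^ N ≤ 1 / 2 * (C₀ ^ 4) ^ N := by
    have h17 : (900 / κ) ^ N ≤ (C₀ ^ 4) ^ N := pow_le_pow_left₀ (by positivity) hC4 _
    have h18 : (900 / κ) ^ N = 2 ^ N * (450 / κ) ^ N := by
      rw [← mul_pow]
      congr 1
      ring
    have h19 : (2 : ℝ) ≤ 2 ^ N := by
      calc (2 : ℝ) = 2 ^ 1 := by norm_num
        _ ≤ 2 ^ N := pow_le_pow_right₀ (by norm_num) hN
    have h20 : 0 < (450 / κ) ^ N := by positivity
    nlinarith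
  have hf0 : (0 : ℝ) < (n - 4 * N).factorial := by exact_mod_cast Nat.factorial_pos _
  calc (Real.sqrt m / (C₀ * n)) ^ m * n.factorial
      ≤ (m : ℝ) ^ (2 * N) / (C₀ ^ (4 * N) * (n : ℝ) ^ (4 * N)) *
          ((n : ℝ) ^ (4 * N) * (n - 4 * N).factorial) := by
        rw [← h4]
        exact mul_le_mul h3 h5 (by positivity) (by positivity)
    _ = (m : ℝ) ^ (2 * N) / (C₀ ^ 4) ^ N * (n - 4 * N).factorial := by
        rw [pow_mul C₀]
        field_simp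
    _ ≤ (225 / 2) ^ N * (4 ^ N * W) / (C₀ ^ 4) ^ N * (n - 4 * N).factorial := by
        refine mul_le_mul_of_nonneg_right (div_le_div_of_nonneg_right ?_ (by positivity)) hf0.le
        exact h8.trans (mul_le_mul_of_nonneg_left hW (by positivity))
    _ = (450 / κ) ^ N / (C₀ ^ 4) ^ N * (κ ^ N * W * (n - 4 * N).factorial) := by
        have h21 : (450 / κ : ℝ) ^ N * κ ^ N = (225 / 2) ^ N * 4 ^ N := by
          rw [← mul_pow, ← mul_pow]
          congr 1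
          field_simp
          norm_num
        have h22 : (225 / 2 : ℝ) ^ N * (4 ^ N * W) / (C₀ ^ 4) ^ N * (n - 4 * N).factorial =
            ((225 / 2) ^ N * 4 ^ N) * W / (C₀ ^ 4) ^ N * (n - 4 * N).factorial := by ring
        rw [h22, ← h21]
        ring
    _ ≤ 1 / 2 * (κ ^ N * W * (n - 4 * N).factorial) := by
        have hW0 : 0 ≤ W := by
          have h23 : (0 : ℝ) < (2 * N).factorial := by exact_mod_cast Nat.factorial_pos _
          have h24 : 0 < 4 ^ N * W := h23.trans_le hW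
          exact (pos_of_mul_pos_right h24 (by positivity)).le
        refine mul_le_mul_of_nonneg_right ?_ (by positivity)
        rw [div_le_iff₀ (by positivity)]
        exact h16

/-- **the form for polynomials**: the distance of a gate to all multiples of the permanent -/
theorem xg_perm : ∃ C₀ : ℝ, 1 ≤ C₀ ∧ ∀ (k w m n s : ℕ), 1 ≤ m → m ≤ n → 1 ≤ s → 1 ≤ w →
    (s : ℝ) + (n : ℝ) ^ w < Real.exp ((m : ℝ) ^ (1 / ((Nat.fib (2 * k + 4) : ℝ) - 1)) / C₀) →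
    ∀ P : Fin s → MvPolynomial (Fin n × Fin n) ℂ, Pool.QPIT.IsCircuitW (k + 1) w P →
    ∀ (g : Fin s) (γ : ℂ), ‖γ‖ ^ 2 * ((Real.sqrt m / (C₀ * n)) ^ m * n.factorial) ≤
      l2 (P g - C γ * Pool.CDep.permP n ℂ) := by
  obtain ⟨c, hc, H⟩ := xg
  obtain ⟨κ, hκ⟩ : ∃ κ : ℝ, κ = (3 / 4 : ℝ) ^ 8 / 4 := ⟨_, rfl⟩
  have hκ0 : 0 < κ := by rw [hκ]; positivity
  have hκ1 : κ ≤ 1 := by rw [hκ]; norm_num
  refine ⟨max (1 / c) (1000 / κ), le_max_of_le_right (by rw [le_div_iff₀ hκ0]; linarith), ?_⟩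
  intro k w m n s hm hmn hs hw hexp P hP g γ
  obtain ⟨C₀, hC₀⟩ : ∃ C₀ : ℝ, C₀ = max (1 / c) (1000 / κ) := ⟨_, rfl⟩
  rw [← hC₀] at hexp ⊢
  have hC1 : 1 / c ≤ C₀ := by rw [hC₀]; exact le_max_left _ _
  have hC2 : 1000 / κ ≤ C₀ := by rw [hC₀]; exact le_max_right _ _
  have hC0p : 0 < C₀ := lt_of_lt_of_le (by positivity) hC1
  obtain ⟨E, hE⟩ : ∃ E : ℝ, E = (m : ℝ) ^ (1 / ((Nat.fib (2 * k + 4) : ℝ) - 1)) := ⟨_, rfl⟩
  rw [← hE] at hexp
  have hE0 : 0 ≤ E := by rw [hE]; exact Real.rpow_nonneg (Nat.cast_nonneg _) _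
  have h1 : E / C₀ ≤ c * E := by
    rw [div_le_iff₀ hC0p]
    have h2 : 1 ≤ c * C₀ := by
      rw [div_le_iff₀ hc] at hC1
      linarith
    nlinarith
  have h3 : (s : ℝ) + (n : ℝ) ^ w < Real.exp (c * E) := hexp.trans_le (Real.exp_le_exp.2 h1)
  have hn1 : 1 ≤ n := hm.trans hmn
  have hnr : (1 : ℝ) ≤ n := by exact_mod_cast hn1
  have hsr : (1 : ℝ) ≤ s := by exact_mod_cast hs
  have hτ : Real.exp (-(c * E)) ≤ 1 / 2 := by
    rw [Real.exp_neg, ← one_div]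
    have h4 : (2 : ℝ) ≤ Real.exp (c * E) := by
      have := one_le_pow₀ (n := w) hnr
      linarith
    exact one_div_le_one_div_of_le (by norm_num) h4
  obtain ⟨R, Q, hR, hQ, hRQ, H⟩ := H k w m n s hm hmn hs hw (by rw [← hE]; exact h3)
  have h5 : 4 * (R + Q) ≤ m := by omega
  have h6 := reduce (R := R) (Q := Q) (h5.trans hmn) (P g)
    (τ := Real.exp (-(c * E))) (fun φ hφ γ' => by
      rw [Pool.XGN.l2_codeQ, hE]
      exact H P hP g φ hφ γ') γ
  refine le_trans ?_ h6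
  rw [Pool.XGN.l2_codeQ, ← hκ]
  have h7 : ((2 * (R + Q)).factorial : ℝ) ≤ 4 ^ (R + Q) * ((Om R Q).card : ℝ) := by
    exact_mod_cast Pool.XG.card_Om_ge R Q
  have h8 := fin_num hκ0 hκ1 hC2 (N := R + Q) (m := m) (n := n) (by omega) h5 (by omega) hmn h7
  calc ‖γ‖ ^ 2 * ((Real.sqrt m / (C₀ * n)) ^ m * n.factorial)
      ≤ ‖γ‖ ^ 2 * (1 / 2 * (κ ^ (R + Q) * ((Om R Q).card : ℝ) * (n - 4 * (R + Q)).factorial)) :=
        mul_le_mul_of_nonneg_left h8 (by positivity)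
    _ = 1 / 2 * (‖γ‖ ^ 2 * ((n - 4 * (R + Q)).factorial * (κ ^ (R + Q) * (Om R Q).card))) := by ring
    _ ≤ _ := by
        refine mul_le_mul_of_nonneg_right ?_ (by positivity)
        linarith

end Pool.XG
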