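import Pool.Agent.XG.Defs

/-!
# XG: circuits over the complex numbers with entire gates

Row G7: the functions computed by a circuit with entire gates are, uniformly on every polydisc,
approximated by the polynomials of circuits of the same shape with polynomial gates.
-/

set_option autoImplicit false

namespace Pool.XG

open Finset MvPolynomial Filter Topology

section taylor

variable {w : ℕ}

/-- the values of a multilinear form on the diagonal are the values of a polynomial -/
theorem exists_diag {k : ℕ} (m : MultilinearMap ℂ (fun _ : Fin k => Fin w → ℂ) ℂ) :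
    ∃ q : MvPolynomial (Fin w) ℂ, ∀ x, eval x q = m fun _ => x := by
  refine ⟨∑ r : Fin k → Fin w, C (m fun j => Pi.single (r j) 1) * ∏ j, X (r j), fun x => ?_⟩
  have h1 : (fun _ : Fin k => x) = fun _ : Fin k => ∑ i : Fin w, x i • (Pi.single i 1 : Fin w → ℂ) := by
    funext _
    exact pi_eq_sum_univ' x
  rw [h1, MultilinearMap.map_sum, map_sum]
  refine Finset.sum_congr rfl fun r _ => ?_
  rw [MultilinearMap.map_smul_univ, map_mul, eval_C, map_prod, smul_eq_mul, mul_comm]
  simp only [eval_X]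

/-- the Taylor coefficients of the restriction of `f` to a line -/
theorem line_coeff {f : (Fin w → ℂ) → ℂ} {p : FormalMultilinearSeries ℂ (Fin w → ℂ) ℂ}
    (hp : HasFPowerSeriesAt f p 0) (x : Fin w → ℂ) (k : ℕ) :
    iteratedDeriv k (fun t : ℂ => f (t • x)) 0 = (k.factorial : ℂ) * p k fun _ => x := by
  set u : ℂ →L[ℂ] (Fin w → ℂ) := (1 : ℂ →L[ℂ] ℂ).smulRight x with hu
  have hux : ∀ t : ℂ, u t = t • x := fun t => by simp [hu]
  have hpu : HasFPowerSeriesAt f p (u 0) := by rwa [map_zero]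
  have h1 := hpu.compContinuousLinearMap
  obtain ⟨r, hr⟩ := h1
  have h2 := hr.factorial_smul (1 : ℂ) k
  have h3 : (fun t : ℂ => f (t • x)) = f ∘ u := by
    funext t
    simp [hux]
  rw [h3, iteratedDeriv_eq_iteratedFDeriv, ← h2]
  rw [nsmul_eq_mul]
  congr 1
  simp [FormalMultilinearSeries.compContinuousLinearMap, hux]

/-- an entire function is approximated by polynomials, uniformly on every ball -/
theorem exists_poly_approx {f : (Fin w → ℂ) → ℂ} (hf : AnalyticOnNhd ℂ f Set.univ) (R : ℝ)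
    {ε : ℝ} (hε : 0 < ε) :
    ∃ q : MvPolynomial (Fin w) ℂ, ∀ x, ‖x‖ ≤ R → ‖f x - eval x q‖ < ε := by
  obtain ⟨p, hp⟩ := hf 0 (Set.mem_univ _)
  -- the polynomial of degree `k`
  choose q hq using fun k => exists_diag (p k).toMultilinearMap
  -- the bound
  obtain ⟨M, hM⟩ : ∃ M : ℝ, ∀ x ∈ Metric.closedBall (0 : Fin w → ℂ) (2 * R), ‖f x‖ ≤ M := by
    obtain ⟨M, hM⟩ := (isCompact_closedBall (0 : Fin w → ℂ) (2 * R)).exists_bound_of_continuousOn
      (f := f) (fun x _ => (hf x (Set.mem_univ _)).continuousAt.continuousWithinAt)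
    exact ⟨M, hM⟩
  have hfd : Differentiable ℂ f := fun x => (hf x (Set.mem_univ _)).differentiableAt
  have hM0 : 0 ≤ max M 0 := le_max_right _ _
  -- the number of terms
  obtain ⟨N, hN⟩ : ∃ N : ℕ, 2 * max M 0 * (1 / 2 : ℝ) ^ N < ε := by
    have h1 : Tendsto (fun N : ℕ => 2 * max M 0 * (1 / 2 : ℝ) ^ N) atTop (𝓝 (2 * max M 0 * 0)) :=
      (tendsto_pow_atTop_nhds_zero_of_lt_one (by norm_num) (by norm_num)).const_mul _
    rw [mul_zero] at h1
    exact (h1.eventually (gt_mem_nhds hε)).exists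
  refine ⟨∑ k ∈ range N, q k, fun x hx => ?_⟩
  have hg : Differentiable ℂ fun t : ℂ => f (t • x) :=
    hfd.comp (differentiable_id.smul_const x)
  have hsum := Complex.hasSum_taylorSeries_of_entire hg 0 1
  have hterm : ∀ k : ℕ, ((k.factorial : ℂ)⁻¹ • ((1 : ℂ) - 0) ^ k •
      iteratedDeriv k (fun t : ℂ => f (t • x)) 0) = eval x (q k) := by
    intro k
    rw [line_coeff hp x k, hq k, sub_zero, one_pow, one_smul, smul_eq_mul, ← mul_assoc,
      inv_mul_cancel₀ (by exact_mod_cast k.factorial_ne_zero), one_mul]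
    rfl
  have hbound : ∀ k : ℕ, ‖eval x (q k)‖ ≤ max M 0 * (1 / 2 : ℝ) ^ k := by
    intro k
    rw [← hterm k, sub_zero, one_pow, one_smul, norm_smul, norm_inv, Complex.norm_natCast]
    have h1 := Complex.norm_iteratedDeriv_le_of_forall_mem_sphere_norm_le (c := (0 : ℂ)) (R := 2)
      (C := max M 0) (f := fun t : ℂ => f (t • x)) k (by norm_num) hg.diffContOnCl
      (fun z hz => (hM _ (by
        rw [mem_closedBall_zero_iff, norm_smul]
        rw [mem_sphere_zero_iff_norm] at hz
        rw [hz]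
        linarith)).trans (le_max_left _ _))
    have h2 : (0 : ℝ) < (k.factorial : ℝ) := by exact_mod_cast k.factorial_pos
    calc ((k.factorial : ℝ))⁻¹ * ‖iteratedDeriv k (fun t : ℂ => f (t • x)) 0‖
        ≤ ((k.factorial : ℝ))⁻¹ * (k.factorial * max M 0 / 2 ^ k) := by gcongr
      _ = max M 0 * (1 / 2 : ℝ) ^ k := by
        rw [one_div, inv_pow]
        field_simp
  simp only [hterm, one_smul] at hsum
  have hgeo : HasSum (fun k : ℕ => max M 0 * (1 / 2 : ℝ) ^ N * (1 / 2 : ℝ) ^ k)
      (max M 0 * (1 / 2 : ℝ) ^ N * 2) := by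
    have h1 := (hasSum_geometric_of_lt_one (r := (1 / 2 : ℝ)) (by norm_num) (by norm_num)).mul_left
      (max M 0 * (1 / 2 : ℝ) ^ N)
    norm_num at h1 ⊢
    exact h1
  have htail : HasSum (fun k => eval x (q (k + N))) (f x - ∑ k ∈ range N, eval x (q k)) :=
    (hasSum_nat_add_iff' N).2 hsum
  rw [map_sum]
  refine lt_of_le_of_lt (htail.norm_le_of_bounded hgeo fun k => ?_) ?_
  · refine (hbound _).trans (le_of_eq ?_)
    rw [pow_add]
    ring
  · linarith

/-- a function which is analytic at every point of `ℂ ^ w` is entire -/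
theorem entire_of_analytic {f : (Fin w → ℂ) → ℂ} (hf : AnalyticOnNhd ℂ f Set.univ) : Entire f := by
  intro R ε hε
  obtain ⟨q, hq⟩ := exists_poly_approx hf (max R 0) hε
  refine ⟨q, fun z hz => (hq z ?_).le⟩
  rw [pi_norm_le_iff_of_nonneg (le_max_right _ _)]
  exact fun i => (hz i).trans (le_max_left _ _)

theorem Entire.continuous {f : (Fin w → ℂ) → ℂ} (hf : Entire f) : Continuous f := by
  rw [continuous_iff_continuousAt]
  intro z
  rw [Metric.continuousAt_iff]
  intro ε hε
  obtain ⟨q, hq⟩ := hf (‖z‖ + 1) (ε / 3) (by linarith)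
  have hqc : ContinuousAt (fun y => eval y q) z := (MvPolynomial.continuous_eval q).continuousAt
  rw [Metric.continuousAt_iff] at hqc
  obtain ⟨δ, hδ, h1⟩ := hqc (ε / 3) (by linarith)
  refine ⟨min δ 1, lt_min hδ one_pos, fun y hy => ?_⟩
  have h2 : ‖y‖ ≤ ‖z‖ + 1 := by
    have h3 : ‖y - z‖ < 1 := by
      rw [← dist_eq_norm]
      exact hy.trans_le (min_le_right _ _)
    have h4 := norm_add_le (y - z) z
    rw [sub_add_cancel] at h4
    linarith
  have h3 := hq y fun i => (norm_le_pi_norm y i).trans h2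
  have h4 := hq z fun i => (norm_le_pi_norm z i).trans (by linarith)
  have h5 := h1 (hy.trans_le (min_le_left _ _))
  rw [dist_eq_norm] at h5 ⊢
  calc ‖f y - f z‖ = ‖(f y - eval y q) + (eval y q - eval z q) + (eval z q - f z)‖ := by
        congr 1; ring
    _ ≤ ‖f y - eval y q‖ + ‖eval y q - eval z q‖ + ‖eval z q - f z‖ := norm_add₃_le
    _ < ε / 3 + ε / 3 + ε / 3 := by
        rw [norm_sub_rev (eval z q) (f z)]
        linarith
    _ = ε := by ring

end taylor


section circuit

variable {σ : Type} [Fintype σ]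

variable {d w s : ℕ}

/-- the conditions on the gate `g` of a circuit of polynomials -/
def Rel (w : ℕ) (lev : Fin s → ℕ) (Q : Fin s → MvPolynomial σ ℂ) (g : Fin s) : Prop :=
  (∃ (a₀ : ℂ) (a : σ → ℂ) (c : Fin s → ℂ), (∀ h, c h ≠ 0 → h < g ∧ lev h ≤ lev g) ∧
      Q g = C a₀ + ∑ v, C (a v) * X v + ∑ h, C (c h) * Q h) ∨
   (∃ (a₀ : ℂ) (a : σ → ℕ) (e : Fin s → ℕ), 0 < lev g ∧
      (∀ h, e h ≠ 0 → h < g ∧ lev h < lev g) ∧
      Q g = C a₀ * (∏ v, X v ^ a v) * ∏ h, Q h ^ e h) ∨
   (∃ (t : Fin w → Fin s) (q : MvPolynomial (Fin w) ℂ), 0 < lev g ∧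
      (∀ i, t i < g ∧ lev (t i) < lev g) ∧ Q g = aeval (fun i => Q (t i)) q)

theorem Rel.congr {lev : Fin s → ℕ} {Q Q' : Fin s → MvPolynomial σ ℂ} {g : Fin s}
    (h : Rel w lev Q g) (hQ : ∀ i, i ≤ g → Q' i = Q i) : Rel w lev Q' g := by
  rcases h with ⟨a₀, a, c, h1, h2⟩ | ⟨a₀, a, e, h0, h1, h2⟩ | ⟨t, q, h0, h1, h2⟩
  · refine Or.inl ⟨a₀, a, c, h1, ?_⟩
    rw [hQ g le_rfl, h2]
    congr 1
    refine Finset.sum_congr rfl fun i _ => ?_
    by_cases hc : c i = 0
    · rw [hc, map_zero, zero_mul, zero_mul]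
    · rw [hQ i (h1 i hc).1.le]
  · refine Or.inr (Or.inl ⟨a₀, a, e, h0, h1, ?_⟩)
    rw [hQ g le_rfl, h2]
    congr 1
    refine Finset.prod_congr rfl fun i _ => ?_
    by_cases hc : e i = 0
    · rw [hc, pow_zero, pow_zero]
    · rw [hQ i (h1 i hc).1.le]
  · refine Or.inr (Or.inr ⟨t, q, h0, h1, ?_⟩)
    rw [hQ g le_rfl, h2]
    congr 2
    funext i
    rw [hQ (t i) (h1 i).1.le]

/-- uniform continuity in the second variable -/
theorem uc {Φ : (σ → ℂ) × (Fin s → ℂ) → ℂ} (hΦ : Continuous Φ) (R B : ℝ) {ε : ℝ} (hε : 0 < ε) :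
    ∃ δ : ℝ, 0 < δ ∧ ∀ (x : σ → ℂ) (y y' : Fin s → ℂ), ‖x‖ ≤ R → ‖y‖ ≤ B → ‖y'‖ ≤ B →
      ‖y - y'‖ < δ → ‖Φ (x, y) - Φ (x, y')‖ < ε := by
  have hK : IsCompact (Metric.closedBall (0 : σ → ℂ) R ×ˢ Metric.closedBall (0 : Fin s → ℂ) B) :=
    (isCompact_closedBall _ _).prod (isCompact_closedBall _ _)
  have h1 := hK.uniformContinuousOn_of_continuous hΦ.continuousOn
  rw [Metric.uniformContinuousOn_iff] at h1
  obtain ⟨δ, hδ, h2⟩ := h1 ε hε
  refine ⟨δ, hδ, fun x y y' hx hy hy' hyy => ?_⟩
  rw [← dist_eq_norm]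
  refine h2 (x, y) ⟨?_, ?_⟩ (x, y') ⟨?_, ?_⟩ ?_
  · simpa using hx
  · simpa using hy
  · simpa using hx
  · simpa using hy'
  · rw [Prod.dist_eq, dist_self, max_lt_iff]
    exact ⟨hδ, by rwa [dist_eq_norm]⟩

/-- the functions of a circuit with entire gates are continuous -/
theorem continuous_gate {P : Fin s → (σ → ℂ) → ℂ} {lev : Fin s → ℕ}
    (H : ∀ g, lev g ≤ d ∧
      ((∃ (a₀ : ℂ) (a : σ → ℂ) (c : Fin s → ℂ), (∀ h, c h ≠ 0 → h < g ∧ lev h ≤ lev g) ∧
          P g = fun x => a₀ + ∑ v, a v * x v + ∑ h, c h * P h x) ∨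
       (∃ (a₀ : ℂ) (a : σ → ℕ) (e : Fin s → ℕ), 0 < lev g ∧
          (∀ h, e h ≠ 0 → h < g ∧ lev h < lev g) ∧
          P g = fun x => a₀ * (∏ v, x v ^ a v) * ∏ h, P h x ^ e h) ∨
       (∃ (t : Fin w → Fin s) (φ : (Fin w → ℂ) → ℂ), 0 < lev g ∧
          (∀ i, t i < g ∧ lev (t i) < lev g) ∧ Entire φ ∧
          P g = fun x => φ fun i => P (t i) x))) :
    ∀ (m : ℕ) (g : Fin s), (g : ℕ) < m → Continuous (P g) := by
  intro m
  induction m with
  | zero => intro g hg; omega
  | succ m ih =>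
    intro g hg
    have hlt : ∀ h, h < g → Continuous (P h) := fun h hh => ih h (by
      have : (h : ℕ) < g := hh
      omega)
    rcases (H g).2 with ⟨a₀, a, c, h1, h2⟩ | ⟨a₀, a, e, h0, h1, h2⟩ | ⟨t, φ, h0, h1, hφ, h2⟩
    · rw [h2]
      refine (continuous_const.add (continuous_finsetSum _ fun v _ =>
        continuous_const.mul (continuous_apply v))).add (continuous_finsetSum _ fun h _ => ?_)
      by_cases hc : c h = 0
      · simp only [hc, zero_mul]
        exact continuous_const
      · exact continuous_const.mul (hlt h (h1 h hc).1)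
    · rw [h2]
      refine (continuous_const.mul (continuous_finsetProd _ fun v _ =>
        (continuous_apply v).pow _)).mul (continuous_finsetProd _ fun h _ => ?_)
      by_cases hc : e h = 0
      · simp only [hc, pow_zero]
        exact continuous_const
      · exact (hlt h (h1 h hc).1).pow _
    · rw [h2]
      exact hφ.continuous.comp (continuous_pi fun i => hlt (t i) (h1 i).1)

/-- **Entire gates can be replaced by polynomial gates.** -/
theorem exists_poly_on {P : Fin s → (σ → ℂ) → ℂ} (hP : IsCircuitE d w P) (R : ℝ) {ε : ℝ}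
    (hε : 0 < ε) : ∃ Q : Fin s → MvPolynomial σ ℂ, Pool.QPIT.IsCircuitW d w Q ∧
      ∀ g x, (∀ v, ‖x v‖ ≤ R) → ‖P g x - eval x (Q g)‖ < ε := by
  classical
  obtain ⟨lev, H⟩ := hP
  have hc : ∀ g, Continuous (P g) := fun g => continuous_gate H s g g.2
  set R' : ℝ := max R 0 with hR'
  -- the bound
  obtain ⟨B, hB1, hB⟩ : ∃ B : ℝ, 0 ≤ B ∧ ∀ x : σ → ℂ, ‖x‖ ≤ R' → ‖fun h => P h x‖ ≤ B := by
    obtain ⟨M, hM⟩ := (isCompact_closedBall (0 : σ → ℂ) R').exists_bound_of_continuousOn
      (f := fun x => fun h => P h x) (continuous_pi hc).continuousOn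
    exact ⟨max M 0, le_max_right _ _, fun x hx => (hM x (by simpa using hx)).trans
      (le_max_left _ _)⟩
  -- the main step
  have key : ∀ (m : ℕ), ∀ {ε : ℝ}, 0 < ε → ∃ Q : Fin s → MvPolynomial σ ℂ, ∀ g : Fin s,
      (g : ℕ) < m → Rel w lev Q g ∧ ∀ x : σ → ℂ, ‖x‖ ≤ R' → ‖P g x - eval x (Q g)‖ < ε := by
    intro m
    induction m with
    | zero => exact fun _ => ⟨fun _ => 0, fun g hg => by omega⟩
    | succ m ih =>
      intro ε hε
      by_cases hm : m < s
      swap
      · obtain ⟨Q, hQ⟩ := ih hε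
        exact ⟨Q, fun g _ => hQ g (by omega)⟩
      set g₀ : Fin s := ⟨m, hm⟩ with hg₀
      have hlt : ∀ h : Fin s, h < g₀ → (h : ℕ) < m := fun h hh => hh
      -- one gate
      suffices hstep : ∃ δ : ℝ, 0 < δ ∧ ∀ Q : Fin s → MvPolynomial σ ℂ,
          (∀ h : Fin s, (h : ℕ) < m → ∀ x : σ → ℂ, ‖x‖ ≤ R' → ‖P h x - eval x (Q h)‖ < δ) →
          ∃ q : MvPolynomial σ ℂ, Rel w lev (Function.update Q g₀ q) g₀ ∧
            ∀ x : σ → ℂ, ‖x‖ ≤ R' → ‖P g₀ x - eval x q‖ < ε by
        obtain ⟨δ, hδ, hq⟩ := hstep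
        obtain ⟨Q, hQ⟩ := ih (lt_min hδ hε)
        obtain ⟨q, hq1, hq2⟩ := hq Q fun h hh x hx =>
          ((hQ h hh).2 x hx).trans_le (min_le_left _ _)
        refine ⟨Function.update Q g₀ q, fun g hg => ?_⟩
        by_cases hgm : g = g₀
        · subst hgm
          refine ⟨hq1, fun x hx => ?_⟩
          rw [Function.update_self]
          exact hq2 x hx
        · have hgm' : (g : ℕ) < m := by
            have : (g : ℕ) ≠ m := fun h => hgm (Fin.ext h)
            omega
          refine ⟨(hQ g hgm').1.congr fun i hi => ?_, fun x hx => ?_⟩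
          · have : i ≠ g₀ := by
              rintro rfl
              have : (g₀ : ℕ) ≤ g := hi
              rw [hg₀] at this
              simp only at this
              omega
            rw [Function.update_of_ne this]
          · rw [Function.update_of_ne hgm]
            exact ((hQ g hgm').2 x hx).trans_le (min_le_right _ _)
      -- a continuous function of the gates
      have general : ∀ (Φ : (σ → ℂ) × (Fin s → ℂ) → ℂ), Continuous Φ →
          (∀ x, P g₀ x = Φ (x, fun h => P h x)) → ∀ ε' : ℝ, 0 < ε' →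
          (∀ (x : σ → ℂ) (y y' : Fin s → ℂ), (∀ h, h < g₀ → y h = y' h) → Φ (x, y) = Φ (x, y')) →
          ∃ δ : ℝ, 0 < δ ∧ δ ≤ 1 ∧ ∀ Q : Fin s → MvPolynomial σ ℂ,
          (∀ h : Fin s, (h : ℕ) < m → ∀ x : σ → ℂ, ‖x‖ ≤ R' → ‖P h x - eval x (Q h)‖ < δ) →
          ∀ x : σ → ℂ, ‖x‖ ≤ R' → ‖P g₀ x - Φ (x, fun h => eval x (Q h))‖ < ε' := by
        intro Φ hΦ hPΦ ε' hε' hdep
        obtain ⟨δ, hδ, hδ2⟩ := uc hΦ R' (B + 1) hε'
        refine ⟨min δ 1, lt_min hδ one_pos, min_le_right _ _, fun Q hQ x hx => ?_⟩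
        set y' : Fin s → ℂ := fun h => if h < g₀ then eval x (Q h) else P h x with hy'
        have h1 : Φ (x, fun h => eval x (Q h)) = Φ (x, y') := hdep x _ _ fun h hh => by
          rw [hy']
          simp only
          rw [if_pos hh]
        have h2 : ‖(fun h => P h x) - y'‖ < min δ 1 := by
          rw [pi_norm_lt_iff (lt_min hδ one_pos)]
          intro h
          rw [Pi.sub_apply, hy']
          simp only
          split_ifs with hh
          · exact hQ h (hlt h hh) x hx
          · rw [sub_self, norm_zero]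
            exact lt_min hδ one_pos
        rw [h1, hPΦ]
        refine hδ2 x _ _ hx ((hB x hx).trans (by linarith)) ?_ (h2.trans_le (min_le_left _ _))
        have h3 : ‖y'‖ ≤ ‖fun h => P h x‖ + ‖(fun h => P h x) - y'‖ := by
          have := norm_sub_le (fun h => P h x) ((fun h => P h x) - y')
          rwa [sub_sub_cancel] at this
        have h4 := h2.trans_le (min_le_right _ _)
        have h5 := hB x hx
        linarith
      rcases (H g₀).2 with ⟨a₀, a, c, h1, h2⟩ | ⟨a₀, a, e, h0, h1, h2⟩ | ⟨t, φ, h0, h1, hφ, h2⟩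
      · obtain ⟨δ, hδ, -, hδ2⟩ := general
          (fun z => a₀ + ∑ v, a v * z.1 v + ∑ h, c h * z.2 h) (by fun_prop)
          (fun x => by rw [h2]) ε hε (fun x y y' hy => by
            simp only
            congr 1
            refine Finset.sum_congr rfl fun h _ => ?_
            by_cases hc : c h = 0
            · rw [hc, zero_mul, zero_mul]
            · rw [hy h (h1 h hc).1])
        refine ⟨δ, hδ, fun Q hQ =>
          ⟨C a₀ + ∑ v, C (a v) * X v + ∑ h, C (c h) * Q h, ?_, fun x hx => ?_⟩⟩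
        · refine Or.inl ⟨a₀, a, c, h1, ?_⟩
          rw [Function.update_self]
          congr 1
          refine Finset.sum_congr rfl fun h _ => ?_
          by_cases hc : c h = 0
          · rw [hc, map_zero, zero_mul, zero_mul]
          · rw [Function.update_of_ne (h1 h hc).1.ne]
        · have := hδ2 Q hQ x hx
          simpa only [map_add, map_sum, map_mul, eval_C, eval_X] using this
      · obtain ⟨δ, hδ, -, hδ2⟩ := general
          (fun z => a₀ * (∏ v, z.1 v ^ a v) * ∏ h, z.2 h ^ e h) (by fun_prop)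
          (fun x => by rw [h2]) ε hε (fun x y y' hy => by
            simp only
            congr 1
            refine Finset.prod_congr rfl fun h _ => ?_
            by_cases hc : e h = 0
            · rw [hc, pow_zero, pow_zero]
            · rw [hy h (h1 h hc).1])
        refine ⟨δ, hδ, fun Q hQ =>
          ⟨C a₀ * (∏ v, X v ^ a v) * ∏ h, Q h ^ e h, ?_, fun x hx => ?_⟩⟩
        · refine Or.inr (Or.inl ⟨a₀, a, e, h0, h1, ?_⟩)
          rw [Function.update_self]
          congr 1
          refine Finset.prod_congr rfl fun h _ => ?_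
          by_cases hc : e h = 0
          · rw [hc, pow_zero, pow_zero]
          · rw [Function.update_of_ne (h1 h hc).1.ne]
        · have := hδ2 Q hQ x hx
          simpa only [map_mul, map_prod, map_pow, eval_C, eval_X] using this
      · have hφc : Continuous φ := hφ.continuous
        obtain ⟨δ, hδ, hδ1, hδ2⟩ := general (fun z => φ fun i => z.2 (t i)) (by fun_prop)
          (fun x => by rw [h2]) (ε / 2) (half_pos hε) (fun x y y' hy => by
            simp only
            congr 1
            funext i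
            rw [hy (t i) (h1 i).1])
        obtain ⟨p, hp⟩ := hφ (B + 1) (ε / 4) (by linarith)
        refine ⟨δ, hδ, fun Q hQ => ⟨aeval (fun i => Q (t i)) p, ?_, fun x hx => ?_⟩⟩
        · refine Or.inr (Or.inr ⟨t, p, h0, h1, ?_⟩)
          rw [Function.update_self]
          congr 2
          funext i
          rw [Function.update_of_ne (h1 i).1.ne]
        · have h3 := hδ2 Q hQ x hx
          have h4 : eval x (aeval (fun i => Q (t i)) p) = eval (fun i => eval x (Q (t i))) p := by
            have h := DFunLike.congr_fun (MvPolynomial.comp_aeval (R := ℂ) (fun i => Q (t i))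
              (aeval x : MvPolynomial σ ℂ →ₐ[ℂ] ℂ)) p
            rw [AlgHom.comp_apply] at h
            simpa only [coe_aeval_eq_eval, aeval_eq_eval] using h
          have h5 : ‖fun i => eval x (Q (t i))‖ ≤ B + 1 := by
            rw [pi_norm_le_iff_of_nonneg (by linarith)]
            intro i
            have h6 := hQ (t i) (hlt _ (h1 i).1) x hx
            have h7 : ‖P (t i) x‖ ≤ B := (norm_le_pi_norm (fun h => P h x) (t i)).trans (hB x hx)
            have h8 : ‖eval x (Q (t i))‖ ≤ ‖P (t i) x‖ + ‖P (t i) x - eval x (Q (t i))‖ := by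
              have := norm_sub_le (P (t i) x) (P (t i) x - eval x (Q (t i)))
              rwa [sub_sub_cancel] at this
            linarith
          have h9 : ‖(φ fun i => eval x (Q (t i))) - eval (fun i => eval x (Q (t i))) p‖ < ε / 2 :=
            (hp _ fun i => (norm_le_pi_norm (fun i => eval x (Q (t i))) i).trans h5).trans_lt
              (by linarith)
          rw [h4]
          calc ‖P g₀ x - eval (fun i => eval x (Q (t i))) p‖
              = ‖(P g₀ x - φ fun i => eval x (Q (t i))) +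
                ((φ fun i => eval x (Q (t i))) - eval (fun i => eval x (Q (t i))) p)‖ := by
                  congr 1; ring
            _ ≤ _ := norm_add_le _ _
            _ < ε / 2 + ε / 2 := add_lt_add h3 h9
            _ = ε := add_halves ε
  obtain ⟨Q, hQ⟩ := key s hε
  refine ⟨Q, ⟨lev, fun g => ⟨(H g).1, (hQ g g.2).1⟩⟩, fun g x hx => (hQ g g.2).2 x ?_⟩
  rw [pi_norm_le_iff_of_nonneg (le_max_right _ _)]
  exact fun v => (hx v).trans (le_max_left _ _)

/-- entire gates are replaced by polynomials, uniformly on the closed unit polydisc -/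
theorem exists_poly {P : Fin s → (σ → ℂ) → ℂ} (hP : IsCircuitE d w P) {ε : ℝ} (hε : 0 < ε) :
    ∃ p : Fin s → MvPolynomial σ ℂ, Pool.QPIT.IsCircuitW d w p ∧
      ∀ g (x : σ → ℂ), (∀ v, ‖x v‖ ≤ 1) → ‖P g x - eval x (p g)‖ ≤ ε := by
  obtain ⟨Q, hQ, h⟩ := exists_poly_on hP 1 hε
  exact ⟨Q, hQ, fun g x hx => (h g x hx).le⟩

end circuit

end Pool.XG
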