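import Pool.Agent.XG.Parseval
import Pool.Agent.XG.Poly

/-!
# XG: from polynomials to entire gates, for all rotation invariant laws of the entries
-/

set_option autoImplicit false

namespace Pool.XG

open Finset MvPolynomial MeasureTheory

section law

/-- the moments of a rotation invariant measure -/
theorem moment_ne {κ : Measure ℂ} (hrot : ∀ u : ℂ, ‖u‖ = 1 → κ.map (fun z => u * z) = κ)
    {a b : ℕ} (hab : a ≠ b) : ∫ z, z ^ a * starRingEnd ℂ (z ^ b) ∂κ = 0 := by
  have hab' : (a : ℝ) - b ≠ 0 := by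
    intro h
    apply hab
    have : (a : ℝ) = b := by linarith
    exact_mod_cast this
  obtain ⟨t, ht⟩ : ∃ t : ℝ, t * (a - b) = Real.pi := ⟨Real.pi / (a - b), by field_simp⟩
  obtain ⟨u, hu⟩ : ∃ u : ℂ, u = Complex.exp (t * Complex.I) := ⟨_, rfl⟩
  have hu1 : ‖u‖ = 1 := by rw [hu]; exact Complex.norm_exp_ofReal_mul_I t
  have hcont : Continuous fun z : ℂ => z ^ a * starRingEnd ℂ (z ^ b) :=
    (continuous_pow a).mul (Complex.continuous_conj.comp (continuous_pow b))
  have h1 : ∫ z, z ^ a * starRingEnd ℂ (z ^ b) ∂κ =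
      ∫ z, (u * z) ^ a * starRingEnd ℂ ((u * z) ^ b) ∂κ := by
    conv_lhs => rw [← hrot u hu1]
    exact integral_map (continuous_const.mul continuous_id).aemeasurable
      hcont.aestronglyMeasurable
  have h2 : u ^ a * starRingEnd ℂ (u ^ b) = -1 := by
    rw [hu, ← Complex.exp_nat_mul, ← Complex.exp_nat_mul, ← Complex.exp_conj, ← Complex.exp_add,
      ← Complex.exp_pi_mul_I]
    congr 1
    simp only [map_mul, Complex.conj_ofReal, Complex.conj_I, map_natCast]
    have h3 : ((t * (a - b) : ℝ) : ℂ) = Real.pi := by rw [ht]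
    push_cast at h3
    linear_combination Complex.I * h3
  have h3 : ∀ z : ℂ, (u * z) ^ a * starRingEnd ℂ ((u * z) ^ b) =
      (-1) * (z ^ a * starRingEnd ℂ (z ^ b)) := by
    intro z
    rw [mul_pow, mul_pow, map_mul, ← h2]
    ring
  simp only [h3] at h1
  rw [integral_const_mul] at h1
  have h4 : (2 : ℂ) * ∫ z, z ^ a * starRingEnd ℂ (z ^ b) ∂κ = 0 := by
    linear_combination h1
  exact (mul_eq_zero.1 h4).resolve_left two_ne_zero

theorem moment_eq {κ : Measure ℂ} (a : ℕ) :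
    ∫ z, z ^ a * starRingEnd ℂ (z ^ a) ∂κ = ((∫ z, ‖z‖ ^ (2 * a) ∂κ : ℝ) : ℂ) := by
  rw [← integral_complex_ofReal]
  congr 1
  funext z
  rw [Complex.mul_conj, Complex.normSq_eq_norm_sq, norm_pow, ← pow_mul, mul_comm a 2]

variable {L : Type} [Fintype L] (κ : L → Measure ℂ) [∀ l, IsFiniteMeasure (κ l)]

/-- **Parseval for rotation invariant laws** -/
theorem parseval_rot (hrot : ∀ l, ∀ u : ℂ, ‖u‖ = 1 → (κ l).map (fun z => u * z) = κ l) {R : ℝ}
    (hR : ∀ l, ∀ᵐ z ∂κ l, ‖z‖ ≤ R) (F : MvPolynomial L ℂ) :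
    ∫ x : L → ℂ, ‖eval x F‖ ^ 2 ∂(Measure.pi κ) =
      ∑ p ∈ F.support, ‖coeff p F‖ ^ 2 * ∏ l, ∫ z, ‖z‖ ^ (2 * p l) ∂κ l := by
  have hmon : ∀ (l : L) (a b : ℕ), Integrable (fun z : ℂ => z ^ a * starRingEnd ℂ (z ^ b)) (κ l) := by
    intro l a b
    refine Integrable.of_bound ((continuous_pow a).mul
      (Complex.continuous_conj.comp (continuous_pow b))).aestronglyMeasurable (R ^ a * R ^ b) ?_
    filter_upwards [hR l] with z hz
    rw [norm_mul, RCLike.norm_conj, norm_pow, norm_pow]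
    have h0 : 0 ≤ ‖z‖ := norm_nonneg z
    exact mul_le_mul (pow_le_pow_left₀ h0 hz a) (pow_le_pow_left₀ h0 hz b) (by positivity)
      (pow_nonneg (h0.trans hz) a)
  have hprod : ∀ (p q : L →₀ ℕ) (x : L → ℂ), (∏ l, x l ^ p l) * starRingEnd ℂ (∏ l, x l ^ q l) =
      ∏ l, x l ^ p l * starRingEnd ℂ (x l ^ q l) := by
    intro p q x
    rw [map_prod, ← prod_mul_distrib]
  have h1 : ∀ p q : L →₀ ℕ, ∫ x : L → ℂ, (∏ l, x l ^ p l) * starRingEnd ℂ (∏ l, x l ^ q l)
      ∂(Measure.pi κ) = if p = q then ((∏ l, ∫ z, ‖z‖ ^ (2 * p l) ∂κ l : ℝ) : ℂ) else 0 := by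
    intro p q
    simp only [hprod]
    rw [MeasureTheory.integral_fintype_prod_eq_prod
      (f := fun (l : L) (z : ℂ) => z ^ p l * starRingEnd ℂ (z ^ q l))]
    split_ifs with hpq
    · subst hpq
      push_cast
      exact prod_congr rfl fun l _ => moment_eq (p l)
    · obtain ⟨l, hl⟩ := Finsupp.ne_iff.1 hpq
      exact prod_eq_zero (mem_univ l) (moment_ne (hrot l) hl)
  have h2 : ∀ x : L → ℂ, ((‖eval x F‖ ^ 2 : ℝ) : ℂ) =
      ∑ p ∈ F.support, ∑ q ∈ F.support, coeff p F * starRingEnd ℂ (coeff q F) *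
        ((∏ l, x l ^ p l) * starRingEnd ℂ (∏ l, x l ^ q l)) := by
    intro x
    rw [← Complex.normSq_eq_norm_sq, ← Complex.mul_conj, eval_eq', map_sum, sum_mul_sum]
    refine sum_congr rfl fun p _ => sum_congr rfl fun q _ => ?_
    rw [map_mul]
    ring
  have hint : ∀ p q : L →₀ ℕ, Integrable (fun x : L → ℂ =>
      coeff p F * starRingEnd ℂ (coeff q F) * ((∏ l, x l ^ p l) *
        starRingEnd ℂ (∏ l, x l ^ q l))) (Measure.pi κ) := by
    intro p q
    simp only [hprod]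
    exact (Integrable.fintype_prod (f := fun (l : L) (z : ℂ) => z ^ p l * starRingEnd ℂ (z ^ q l))
      fun l => hmon l (p l) (q l)).const_mul _
  have h3 : ((∫ x : L → ℂ, ‖eval x F‖ ^ 2 ∂(Measure.pi κ) : ℝ) : ℂ) =
      ((∑ p ∈ F.support, ‖coeff p F‖ ^ 2 * ∏ l, ∫ z, ‖z‖ ^ (2 * p l) ∂κ l : ℝ) : ℂ) := by
    rw [← integral_complex_ofReal]
    simp only [h2]
    rw [integral_finsetSum _ fun p _ => integrable_finsetSum _ fun q _ => hint p q]
    simp only [Complex.ofReal_sum]
    refine sum_congr rfl fun p hp => ?_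
    rw [integral_finsetSum _ fun q _ => hint p q]
    have h4 : ∀ q ∈ F.support, ∫ x : L → ℂ, coeff p F * starRingEnd ℂ (coeff q F) *
        ((∏ l, x l ^ p l) * starRingEnd ℂ (∏ l, x l ^ q l)) ∂(Measure.pi κ) =
        if p = q then coeff p F * starRingEnd ℂ (coeff q F) *
          ((∏ l, ∫ z, ‖z‖ ^ (2 * p l) ∂κ l : ℝ) : ℂ) else 0 := by
      intro q _
      rw [integral_const_mul, h1 p q]
      split_ifs <;> simp
    rw [sum_congr rfl h4, sum_ite_eq, if_pos hp, Complex.mul_conj, Complex.normSq_eq_norm_sq]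
    push_cast
    ring
  exact_mod_cast h3

omit [Fintype L] [∀ l, IsFiniteMeasure (κ l)] in
/-- Jensen: lower bound for the moments -/
theorem moment_ge {κ : Measure ℂ} [IsFiniteMeasure κ] {R t : ℝ} (hR : ∀ᵐ z ∂κ, ‖z‖ ≤ R)
    (ht : 0 < t) (h0 : t ≤ κ.real Set.univ) (h0' : κ.real Set.univ ≤ 1)
    (h1 : t ≤ ∫ z, ‖z‖ ^ 2 ∂κ) (k : ℕ) : t * t ^ k ≤ ∫ z, ‖z‖ ^ (2 * k) ∂κ := by
  have hM0 : 0 < κ.real Set.univ := ht.trans_le h0
  have : NeZero κ := ⟨by
    rintro rfl
    simp at hM0⟩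
  have hint : ∀ j : ℕ, Integrable (fun z : ℂ => ‖z‖ ^ j) κ := by
    intro j
    refine Integrable.of_bound (continuous_norm.pow j).aestronglyMeasurable (R ^ j) ?_
    filter_upwards [hR] with z hz
    rw [norm_pow, norm_norm]
    exact pow_le_pow_left₀ (norm_nonneg z) hz j
  have hj := (convexOn_pow (𝕜 := ℝ) k).map_average_le (μ := κ) (f := fun z : ℂ => ‖z‖ ^ 2)
    (continuous_pow k).continuousOn isClosed_Ici
    (Filter.Eventually.of_forall fun z => by
      show (0 : ℝ) ≤ ‖z‖ ^ 2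
      positivity) (hint 2) (by
      refine (hint (2 * k)).congr (Filter.Eventually.of_forall fun z => ?_)
      show ‖z‖ ^ (2 * k) = (‖z‖ ^ 2) ^ k
      rw [pow_mul])
  rw [average_eq, average_eq, smul_eq_mul, smul_eq_mul] at hj
  simp only [← pow_mul] at hj
  have h2 : t ≤ (κ.real Set.univ)⁻¹ * ∫ z, ‖z‖ ^ 2 ∂κ := by
    have h3 : 1 ≤ (κ.real Set.univ)⁻¹ := (one_le_inv₀ hM0).2 h0'
    calc t = 1 * t := (one_mul t).symm
      _ ≤ _ := mul_le_mul h3 h1 ht.le (by positivity)
  have h3 : t ^ k ≤ (κ.real Set.univ)⁻¹ * ∫ z, ‖z‖ ^ (2 * k) ∂κ :=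
    (pow_le_pow_left₀ ht.le h2 k).trans hj
  have h4 := mul_le_mul h0 h3 (by positivity) hM0.le
  rwa [← mul_assoc, mul_inv_cancel₀ hM0.ne', one_mul] at h4

end law

section scale

variable {L : Type}

/-- all variables are multiplied by `ρ` -/
noncomputable def sc (ρ : ℂ) : MvPolynomial L ℂ →ₐ[ℂ] MvPolynomial L ℂ :=
  aeval fun l => C ρ * X l

theorem sc_monomial [Fintype L] (ρ : ℂ) (p : L →₀ ℕ) (c : ℂ) :
    sc ρ (monomial p c) = monomial p (ρ ^ (∑ l, p l) * c) := by
  unfold sc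
  rw [aeval_monomial, Finsupp.prod_fintype _ _ (fun _ => pow_zero _)]
  simp only [mul_pow, prod_mul_distrib, prod_pow_eq_pow_sum]
  rw [monomial_eq (s := p), Finsupp.prod_fintype _ _ (fun _ => pow_zero _), algebraMap_eq, map_mul,
    map_pow]
  ring

theorem coeff_sc [Fintype L] (ρ : ℂ) (F : MvPolynomial L ℂ) (p : L →₀ ℕ) :
    coeff p (sc ρ F) = ρ ^ (∑ l, p l) * coeff p F := by
  classical
  conv_lhs => rw [← support_sum_monomial_coeff F]
  rw [map_sum, coeff_sum]
  simp only [sc_monomial, coeff_monomial]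
  rw [sum_ite_eq']
  split_ifs with h
  · rfl
  · rw [notMem_support_iff.1 h, mul_zero]

theorem l2_sc [Fintype L] {t : ℝ} (ht : 0 ≤ t) (F : MvPolynomial L ℂ) :
    l2 (sc (Real.sqrt t : ℂ) F) = ∑ p ∈ F.support, t ^ (∑ l, p l) * ‖coeff p F‖ ^ 2 := by
  have hsub : (sc (Real.sqrt t : ℂ) F).support ⊆ F.support := by
    intro p hp
    rw [mem_support_iff] at hp ⊢
    intro h
    apply hp
    rw [coeff_sc, h, mul_zero]
  rw [l2_eq _ hsub]
  refine sum_congr rfl fun p _ => ?_
  rw [coeff_sc, norm_mul, mul_pow, norm_pow, Complex.norm_real, Real.norm_of_nonneg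
    (Real.sqrt_nonneg t), ← pow_mul, mul_comm (∑ l, p l) 2, pow_mul, Real.sq_sqrt ht]

theorem sc_homogeneous [Fintype L] (ρ : ℂ) {G : MvPolynomial L ℂ} {N : ℕ}
    (hG : G.IsHomogeneous N) : sc ρ G = C (ρ ^ N) * G := by
  ext p
  rw [coeff_sc, coeff_C_mul]
  by_cases h : coeff p G = 0
  · rw [h, mul_zero, mul_zero]
  · have h1 := hG h
    have h2 : ∑ l, p l = N := by
      rw [← h1, Finsupp.weight_apply]
      simp [Finsupp.sum_fintype]
    rw [h2]

/-- scaled circuits are circuits -/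
theorem isCircuitW_sc [Fintype L] (ρ : ℂ) {d w s : ℕ} {P : Fin s → MvPolynomial L ℂ}
    (hP : Pool.QPIT.IsCircuitW d w P) : Pool.QPIT.IsCircuitW d w fun g => sc ρ (P g) := by
  obtain ⟨lev, H⟩ := hP
  refine ⟨lev, fun g => ⟨(H g).1, ?_⟩⟩
  rcases (H g).2 with ⟨a₀, a, c, h1, h2⟩ | ⟨a₀, a, e, h0, h1, h2⟩ | ⟨t, Q, h0, h1, h2⟩
  · refine Or.inl ⟨a₀, fun v => a v * ρ, c, h1, ?_⟩
    simp only [h2, map_add, map_sum, map_mul]
    have hC : ∀ z : ℂ, sc ρ (C z : MvPolynomial L ℂ) = C z := fun z => by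
      unfold sc
      rw [← algebraMap_eq, AlgHom.commutes]
    have hX : ∀ v : L, sc ρ (X v : MvPolynomial L ℂ) = C ρ * X v := fun v => by
      unfold sc
      rw [aeval_X]
    simp only [hC, hX, mul_assoc]
  · refine Or.inr (Or.inl ⟨a₀ * ρ ^ (∑ v, a v), a, e, h0, h1, ?_⟩)
    simp only [h2, map_mul, map_prod, map_pow]
    have hC : ∀ z : ℂ, sc ρ (C z : MvPolynomial L ℂ) = C z := fun z => by
      unfold sc
      rw [← algebraMap_eq, AlgHom.commutes]
    have hX : ∀ v : L, sc ρ (X v : MvPolynomial L ℂ) = C ρ * X v := fun v => by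
      unfold sc
      rw [aeval_X]
    simp only [hC, hX, mul_pow, prod_mul_distrib, prod_pow_eq_pow_sum]
    ring
  · refine Or.inr (Or.inr ⟨t, Q, h0, h1, ?_⟩)
    simp only [h2]
    exact comp_aeval_apply _ _ _

end scale

section cut

variable {L : Type} [Fintype L]

/-- the laws are cut at a large radius -/
theorem exists_radius (ν : L → Measure ℂ) [∀ l, IsProbabilityMeasure (ν l)]
    (h2 : ∀ l, ∫ z, ‖z‖ ^ 2 ∂ν l = 1) {t : ℝ} (ht : t < 1) :
    ∃ R : ℕ, ∀ l, t ≤ ((ν l).restrict (Metric.closedBall 0 R)).real Set.univ ∧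
      t ≤ ∫ z in Metric.closedBall 0 R, ‖z‖ ^ 2 ∂ν l := by
  have hmono : Monotone fun n : ℕ => Metric.closedBall (0 : ℂ) n := fun a b hab =>
    Metric.closedBall_subset_closedBall (by exact_mod_cast hab)
  have hU : (⋃ n : ℕ, Metric.closedBall (0 : ℂ) n) = Set.univ := Metric.iUnion_closedBall_nat 0
  have key : ∀ l, ∀ f : ℂ → ℝ, Integrable f (ν l) → ∫ z, f z ∂ν l = 1 →
      ∀ᶠ n : ℕ in Filter.atTop, t ≤ ∫ z in Metric.closedBall 0 n, f z ∂ν l := by
    intro l f hf h1
    have h3 := tendsto_setIntegral_of_monotone (μ := ν l) (f := f)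
      (fun n : ℕ => (Metric.isClosed_closedBall (x := (0 : ℂ)) (ε := n)).measurableSet) hmono
      (by rw [hU]; exact hf.integrableOn)
    rw [hU, setIntegral_univ, h1] at h3
    exact (h3.eventually_const_lt ht).mono fun _ h => h.le
  have h3 : ∀ᶠ n : ℕ in Filter.atTop, ∀ l,
      t ≤ ((ν l).restrict (Metric.closedBall 0 n)).real Set.univ ∧
      t ≤ ∫ z in Metric.closedBall 0 n, ‖z‖ ^ 2 ∂ν l := by
    rw [Filter.eventually_all]
    intro l
    have h4 : Integrable (fun z : ℂ => ‖z‖ ^ 2) (ν l) := by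
      by_contra hcon
      have := h2 l
      rw [integral_undef hcon] at this
      exact zero_ne_one this
    have h5 := key l (fun _ => 1) (integrable_const 1) (by simp)
    have h6 := key l _ h4 (h2 l)
    filter_upwards [h5, h6] with n h7 h8
    refine ⟨?_, h8⟩
    simpa using h7
  exact h3.exists

theorem rot_restrict {ν : Measure ℂ} (hrot : ∀ u : ℂ, ‖u‖ = 1 → ν.map (fun z => u * z) = ν)
    (R : ℝ) (u : ℂ) (hu : ‖u‖ = 1) :
    (ν.restrict (Metric.closedBall 0 R)).map (fun z => u * z) =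
      ν.restrict (Metric.closedBall 0 R) := by
  have h1 : (fun z : ℂ => u * z) ⁻¹' (Metric.closedBall 0 R) = Metric.closedBall 0 R := by
    ext z
    simp [hu]
  have h2 : Measurable fun z : ℂ => u * z := (continuous_const.mul continuous_id).measurable
  have h3 := Measure.restrict_map (μ := ν) h2
    (Metric.isClosed_closedBall (x := (0 : ℂ)) (ε := R)).measurableSet
  rw [h1, hrot u hu] at h3
  exact h3.symm

/-- **From polynomial gates to entire gates, for all rotation invariant laws**: if no polynomial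
circuit is close to a multiple of the homogeneous polynomial `G` in the norm of the coefficients,
then no circuit with entire gates is close to `G` in the mean square for independent entries with
rotation invariant laws of second moment one. -/
theorem rot_lower {d w s N : ℕ} {G : MvPolynomial L ℂ} (hG : G.IsHomogeneous N) {B : ℝ}
    {P : Fin s → (L → ℂ) → ℂ} (hP : IsCircuitE d w P) (g : Fin s)
    (hpoly : ∀ p : Fin s → MvPolynomial L ℂ, Pool.QPIT.IsCircuitW d w p → ∀ γ : ℂ,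
      ‖γ‖ ^ 2 * B ≤ l2 (p g - C γ * G))
    (ν : L → Measure ℂ) [∀ l, IsProbabilityMeasure (ν l)]
    (hrot : ∀ l, ∀ u : ℂ, ‖u‖ = 1 → (ν l).map (fun z => u * z) = ν l)
    (h2 : ∀ l, ∫ z, ‖z‖ ^ 2 ∂ν l = 1) :
    ENNReal.ofReal B ≤ ∫⁻ x, ENNReal.ofReal (‖P g x - eval x G‖ ^ 2) ∂(Measure.pi ν) := by
  have hcP : Continuous (P g) := by
    obtain ⟨lev, H⟩ := hP
    exact continuous_gate H s g g.2
  have hcG : Continuous fun x : L → ℂ => eval x G := MvPolynomial.continuous_eval G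
  have key : ∀ t : ℝ, 0 < t → t < 1 → ENNReal.ofReal (t ^ Fintype.card L * (t ^ N * B)) ≤
      ∫⁻ x, ENNReal.ofReal (‖P g x - eval x G‖ ^ 2) ∂(Measure.pi ν) := by
    intro t ht0 ht1
    obtain ⟨R, hR⟩ := exists_radius ν h2 ht1
    obtain ⟨κ, hκ⟩ : ∃ κ : L → Measure ℂ, κ = fun l => (ν l).restrict (Metric.closedBall 0 (R : ℝ)) :=
      ⟨_, rfl⟩
    have hfin : ∀ l, IsFiniteMeasure (κ l) := fun l => by rw [hκ]; infer_instance
    obtain ⟨K, hK⟩ : ∃ K : Set (L → ℂ), K = Set.univ.pi fun _ => Metric.closedBall (0 : ℂ) (R : ℝ) :=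
      ⟨_, rfl⟩
    have hKc : IsCompact K := by
      rw [hK]
      exact isCompact_univ_pi fun _ => isCompact_closedBall _ _
    have hKm : MeasurableSet K := hKc.isClosed.measurableSet
    have hpi : Measure.pi κ = (Measure.pi ν).restrict K := by
      rw [hK, Measure.restrict_pi_pi, hκ]
    have hKx : ∀ x ∈ K, ∀ l, ‖x l‖ ≤ R := by
      intro x hx l
      rw [hK] at hx
      have := hx l (Set.mem_univ l)
      simpa using this
    have hRl : ∀ l, ∀ᵐ z ∂κ l, ‖z‖ ≤ R := by
      intro l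
      rw [hκ]
      refine ae_restrict_of_forall_mem Metric.isClosed_closedBall.measurableSet fun z hz => ?_
      simpa using hz
    obtain ⟨M₀, hM₀⟩ := hKc.exists_bound_of_continuousOn (hcP.sub hcG).continuousOn
    obtain ⟨M, hM0, hM⟩ : ∃ M : ℝ, 0 ≤ M ∧ ∀ x ∈ K, ‖P g x - eval x G‖ ≤ M :=
      ⟨|M₀|, abs_nonneg _, fun x hx => (hM₀ x hx).trans (le_abs_self _)⟩
    have hintK : ∀ f : (L → ℂ) → ℝ, Continuous f → Integrable f (Measure.pi κ) := by
      intro f hf
      obtain ⟨A, hA⟩ := hKc.exists_bound_of_continuousOn hf.continuousOn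
      rw [hpi]
      exact Integrable.of_bound hf.aestronglyMeasurable A
        (ae_restrict_of_forall_mem hKm fun x hx => hA x hx)
    have hcI : Continuous fun x => ‖P g x - eval x G‖ ^ 2 := (hcP.sub hcG).norm.pow 2
    have hmass : (Measure.pi κ).real Set.univ ≤ 1 := by
      rw [hpi, measureReal_restrict_apply_univ]
      exact measureReal_le_one
    -- reduction to a Bochner integral
    have h5 : ENNReal.ofReal (∫ x, ‖P g x - eval x G‖ ^ 2 ∂(Measure.pi κ)) ≤
        ∫⁻ x, ENNReal.ofReal (‖P g x - eval x G‖ ^ 2) ∂(Measure.pi ν) := by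
      rw [ofReal_integral_eq_lintegral_ofReal (hintK _ hcI)
        (Filter.Eventually.of_forall fun x => by
          show (0 : ℝ) ≤ ‖P g x - eval x G‖ ^ 2
          positivity), hpi]
      exact setLIntegral_le_lintegral _ _
    refine le_trans (ENNReal.ofReal_le_ofReal ?_) h5
    refine le_of_forall_pos_le_add fun δ hδ => ?_
    obtain ⟨ε, hε, hε1, hε2⟩ : ∃ ε : ℝ, 0 < ε ∧ ε ≤ 1 ∧ ε * (2 * M + 1) ≤ δ := by
      refine ⟨min 1 (δ / (2 * M + 1)), lt_min one_pos (by positivity), min_le_left _ _, ?_⟩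
      calc min 1 (δ / (2 * M + 1)) * (2 * M + 1) ≤ δ / (2 * M + 1) * (2 * M + 1) :=
            mul_le_mul_of_nonneg_right (min_le_right _ _) (by positivity)
        _ = δ := by field_simp
    obtain ⟨p, hp, hpP⟩ := exists_poly_on hP (R : ℝ) hε
    have h6 : ∫ x, ‖eval x (p g - G)‖ ^ 2 ∂(Measure.pi κ) ≤
        ∫ x, ‖P g x - eval x G‖ ^ 2 ∂(Measure.pi κ) + δ := by
      have h7 : ∫ x, ‖eval x (p g - G)‖ ^ 2 ∂(Measure.pi κ) ≤
          ∫ x, (‖P g x - eval x G‖ ^ 2 + δ) ∂(Measure.pi κ) := by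
        refine integral_mono_ae (hintK _ ((MvPolynomial.continuous_eval _).norm.pow 2))
          (hintK _ (hcI.add continuous_const)) ?_
        rw [hpi]
        refine ae_restrict_of_forall_mem hKm fun x hx => ?_
        have h8 := hpP g x (hKx x hx)
        have h9 := hM x hx
        have h10 : ‖eval x (p g - G)‖ ≤ ‖P g x - eval x G‖ + ε := by
          have h11 : eval x (p g - G) = (P g x - eval x G) - (P g x - eval x (p g)) := by
            rw [map_sub]
            ring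
          rw [h11]
          exact (norm_sub_le _ _).trans (by linarith)
        have h12 : 0 ≤ ‖eval x (p g - G)‖ := norm_nonneg _
        have h13 : 0 ≤ ‖P g x - eval x G‖ := norm_nonneg _
        show ‖eval x (p g - G)‖ ^ 2 ≤ ‖P g x - eval x G‖ ^ 2 + δ
        nlinarith
      refine h7.trans ?_
      rw [integral_add (hintK _ hcI) (hintK _ continuous_const), integral_const, smul_eq_mul]
      have : (Measure.pi κ).real Set.univ * δ ≤ 1 * δ := mul_le_mul_of_nonneg_right hmass hδ.le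
      linarith
    refine le_trans ?_ h6
    rw [parseval_rot κ (fun l u hu => by rw [hκ]; exact rot_restrict (hrot l) _ u hu) hRl]
    have h7 : t ^ N * B ≤ l2 (sc (Real.sqrt t : ℂ) (p g - G)) := by
      have h8 := hpoly (fun g => sc (Real.sqrt t : ℂ) (p g)) (isCircuitW_sc _ hp)
        ((Real.sqrt t : ℂ) ^ N)
      rw [map_sub, sc_homogeneous _ hG]
      rw [norm_pow, Complex.norm_real, Real.norm_of_nonneg (Real.sqrt_nonneg t), ← pow_mul,
        mul_comm N 2, pow_mul, Real.sq_sqrt ht0.le] at h8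
      exact h8
    rw [l2_sc ht0.le] at h7
    calc t ^ Fintype.card L * (t ^ N * B) ≤
        t ^ Fintype.card L * ∑ q ∈ (p g - G).support, t ^ (∑ l, q l) * ‖coeff q (p g - G)‖ ^ 2 :=
          mul_le_mul_of_nonneg_left h7 (by positivity)
      _ = ∑ q ∈ (p g - G).support, ‖coeff q (p g - G)‖ ^ 2 * ∏ l, (t * t ^ q l) := by
          rw [mul_sum]
          refine sum_congr rfl fun q _ => ?_
          rw [prod_mul_distrib, prod_const, prod_pow_eq_pow_sum, card_univ]
          ring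
      _ ≤ _ := by
          refine sum_le_sum fun q _ => ?_
          apply mul_le_mul_of_nonneg_left _ (by positivity)
          refine prod_le_prod (fun l _ => by positivity) fun l _ => ?_
          have h9 := hR l
          have h10 := hfin l
          refine moment_ge (hRl l) ht0 ?_ ?_ ?_ (q l)
          · rw [hκ]
            exact h9.1
          · rw [hκ, measureReal_restrict_apply_univ]
            exact measureReal_le_one
          · rw [hκ]
            exact h9.2
  have hlim : Filter.Tendsto (fun t : ℝ => ENNReal.ofReal (t ^ Fintype.card L * (t ^ N * B)))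
      (nhdsWithin 1 (Set.Iio 1)) (nhds (ENNReal.ofReal B)) := by
    have h3 : Filter.Tendsto (fun t : ℝ => ENNReal.ofReal (t ^ Fintype.card L * (t ^ N * B)))
        (nhds 1) (nhds (ENNReal.ofReal ((1 : ℝ) ^ Fintype.card L * ((1 : ℝ) ^ N * B)))) := by
      apply Continuous.tendsto
      exact ENNReal.continuous_ofReal.comp (by fun_prop)
    rw [one_pow, one_pow, one_mul, one_mul] at h3
    exact h3.mono_left nhdsWithin_le_nhds
  refine le_of_tendsto hlim ?_
  have h3 : ∀ᶠ t : ℝ in nhdsWithin 1 (Set.Iio 1), t ∈ Set.Ioo (0 : ℝ) 1 :=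
    Ioo_mem_nhdsLT one_pos
  filter_upwards [h3] with t ht
  exact key t ht.1 ht.2

end cut

end Pool.XG
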