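import Pool.Agent.XG.Parseval

/-!
# XG, row G4: Parseval on the torus, and the passage to the limit
-/

set_option autoImplicit false

namespace Pool.XG

open Finset MvPolynomial MeasureTheory

theorem toCircle_pow (x : UnitAddCircle) (a : ℕ) :
    (AddCircle.toCircle x : ℂ) ^ a = fourier (a : ℤ) x := by
  induction a with
  | zero => simp
  | succ a ih =>
    rw [pow_succ, ih, Nat.cast_succ, fourier_add, fourier_one]

theorem pow_mul_conj (x : UnitAddCircle) (a b : ℕ) :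
    (AddCircle.toCircle x : ℂ) ^ a * starRingEnd ℂ ((AddCircle.toCircle x : ℂ) ^ b) =
      fourier ((a : ℤ) - b) x := by
  rw [toCircle_pow, toCircle_pow, ← fourier_neg, ← fourier_add, sub_eq_add_neg]

theorem integral_fourier_eq (n : ℤ) :
    ∫ x : UnitAddCircle, fourier n x = if n = 0 then (1 : ℂ) else 0 := by
  have h1 := AddCircle.integral_haarAddCircle (T := (1 : ℝ)) (f := fun x => fourier n x)
  rw [inv_one, one_smul] at h1
  have h2 : (∫ x : AddCircle (1 : ℝ), fourier n x ∂AddCircle.haarAddCircle) =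
      if n = 0 then (1 : ℂ) else 0 := by
    have h3 := congrFun (fourierCoeff_fourier (T := (1 : ℝ)) n) 0
    rw [fourierCoeff] at h3
    simp only [neg_zero, fourier_zero, one_smul] at h3
    rw [h3, Pi.single_apply]
    simp only [eq_comm]
  exact h1.symm.trans h2

/-- Parseval on the torus -/
theorem parseval_torus {L : Type} [Fintype L] (F : MvPolynomial L ℂ) :
    ∫ θ : L → UnitAddCircle, ‖eval (fun l => (AddCircle.toCircle (θ l) : ℂ)) F‖ ^ 2 = l2 F := by
  have h1 : ∀ p q : L →₀ ℕ, ∫ θ : L → UnitAddCircle,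
      (∏ l, (AddCircle.toCircle (θ l) : ℂ) ^ p l) *
        starRingEnd ℂ (∏ l, (AddCircle.toCircle (θ l) : ℂ) ^ q l) = if p = q then 1 else 0 := by
    intro p q
    have h2 : ∀ θ : L → UnitAddCircle, (∏ l, (AddCircle.toCircle (θ l) : ℂ) ^ p l) *
        starRingEnd ℂ (∏ l, (AddCircle.toCircle (θ l) : ℂ) ^ q l) =
        ∏ l, fourier ((p l : ℤ) - q l) (θ l) := by
      intro θ
      rw [map_prod, ← prod_mul_distrib]
      exact prod_congr rfl fun l _ => pow_mul_conj _ _ _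
    simp only [h2]
    rw [MeasureTheory.integral_fintype_prod_volume_eq_prod
      (f := fun (l : L) (x : UnitAddCircle) => fourier ((p l : ℤ) - q l) x)]
    simp only [integral_fourier_eq]
    split_ifs with hpq
    · subst hpq
      simp
    · obtain ⟨l, hl⟩ := Finsupp.ne_iff.1 hpq
      exact prod_eq_zero (mem_univ l) (if_neg (by omega))
  have h2 : ∀ x : L → ℂ, ((‖eval x F‖ ^ 2 : ℝ) : ℂ) =
      ∑ p ∈ F.support, ∑ q ∈ F.support, coeff p F * starRingEnd ℂ (coeff q F) *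
        ((∏ l, x l ^ p l) * starRingEnd ℂ (∏ l, x l ^ q l)) := by
    intro x
    rw [← Complex.normSq_eq_norm_sq, ← Complex.mul_conj, eval_eq', map_sum, sum_mul_sum]
    refine sum_congr rfl fun p _ => sum_congr rfl fun q _ => ?_
    rw [map_mul]
    ring
  have hcont : ∀ p : L →₀ ℕ, Continuous fun θ : L → UnitAddCircle =>
      ∏ l, (AddCircle.toCircle (θ l) : ℂ) ^ p l := by
    intro p
    refine continuous_finsetProd _ fun l _ => ?_
    exact (continuous_subtype_val.comp (AddCircle.continuous_toCircle.comp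
      (continuous_apply l))).pow _
  have hint : ∀ p q : L →₀ ℕ, Integrable fun θ : L → UnitAddCircle =>
      coeff p F * starRingEnd ℂ (coeff q F) * ((∏ l, (AddCircle.toCircle (θ l) : ℂ) ^ p l) *
        starRingEnd ℂ (∏ l, (AddCircle.toCircle (θ l) : ℂ) ^ q l)) := by
    intro p q
    refine Continuous.integrable_of_hasCompactSupport ?_ (HasCompactSupport.of_compactSpace _)
    exact continuous_const.mul ((hcont p).mul (Complex.continuous_conj.comp (hcont q)))
  have h3 : ((∫ θ : L → UnitAddCircle, ‖eval (fun l => (AddCircle.toCircle (θ l) : ℂ)) F‖ ^ 2 :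
      ℝ) : ℂ) = ((l2 F : ℝ) : ℂ) := by
    rw [← integral_complex_ofReal]
    simp only [h2]
    rw [integral_finsetSum _ fun p _ => integrable_finsetSum _ fun q _ => hint p q]
    simp only [l2, Complex.ofReal_sum]
    refine sum_congr rfl fun p hp => ?_
    rw [integral_finsetSum _ fun q _ => hint p q]
    have h4 : ∀ q ∈ F.support, ∫ θ : L → UnitAddCircle, coeff p F * starRingEnd ℂ (coeff q F) *
        ((∏ l, (AddCircle.toCircle (θ l) : ℂ) ^ p l) *
          starRingEnd ℂ (∏ l, (AddCircle.toCircle (θ l) : ℂ) ^ q l)) =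
        if p = q then coeff p F * starRingEnd ℂ (coeff q F) else 0 := by
      intro q _
      rw [integral_const_mul, h1 p q]
      split_ifs <;> simp
    rw [sum_congr rfl h4, sum_ite_eq, if_pos hp, Complex.mul_conj, Complex.normSq_eq_norm_sq]
  exact_mod_cast h3

/-- passage to the limit -/
theorem le_integral_of_approx {Ω : Type} [TopologicalSpace Ω] [CompactSpace Ω]
    [MeasurableSpace Ω] [BorelSpace Ω] (μ : Measure Ω) [IsProbabilityMeasure μ] (f g : Ω → ℂ)
    (hg : Continuous g) {B : ℝ} (h : ∀ ε : ℝ, 0 < ε → ∃ q : Ω → ℂ, Continuous q ∧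
      (∀ ω, ‖f ω - q ω‖ < ε) ∧ B ≤ ∫ ω, ‖q ω - g ω‖ ^ 2 ∂μ) :
    B ≤ ∫ ω, ‖f ω - g ω‖ ^ 2 ∂μ := by
  have hf : Continuous f := by
    refine continuous_of_uniform_approx_of_continuous fun u hu => ?_
    obtain ⟨ε, hε, hu'⟩ := Metric.mem_uniformity_dist.1 hu
    obtain ⟨q, hq, hfq, -⟩ := h ε hε
    refine ⟨q, hq, fun y => hu' ?_⟩
    rw [dist_eq_norm]
    exact hfq y
  obtain ⟨M, hM⟩ := isCompact_univ.exists_bound_of_continuousOn (hf.sub hg).continuousOn
  have hM' : ∀ ω, ‖f ω - g ω‖ ≤ |M| := fun ω => (hM ω (Set.mem_univ _)).trans (le_abs_self _)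
  have hint : ∀ q : Ω → ℂ, Continuous q → Integrable (fun ω => ‖q ω - g ω‖ ^ 2) μ := by
    intro q hq
    obtain ⟨N, hN⟩ := isCompact_univ.exists_bound_of_continuousOn
      (f := fun ω => ‖q ω - g ω‖ ^ 2) ((hq.sub hg).norm.pow 2).continuousOn
    exact Integrable.of_bound ((hq.sub hg).norm.pow 2).aestronglyMeasurable N
      (Filter.Eventually.of_forall fun ω => hN ω (Set.mem_univ _))
  refine le_of_forall_pos_le_add fun δ hδ => ?_
  obtain ⟨ε, hε, hε1, hε2⟩ : ∃ ε : ℝ, 0 < ε ∧ ε ≤ 1 ∧ ε * (2 * |M| + 1) ≤ δ := by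
    have h1 : 0 < 2 * |M| + 1 := by positivity
    refine ⟨min 1 (δ / (2 * |M| + 1)), lt_min one_pos (div_pos hδ h1), min_le_left _ _, ?_⟩
    calc min 1 (δ / (2 * |M| + 1)) * (2 * |M| + 1) ≤ δ / (2 * |M| + 1) * (2 * |M| + 1) :=
          mul_le_mul_of_nonneg_right (min_le_right _ _) h1.le
      _ = δ := div_mul_cancel₀ _ h1.ne'
  obtain ⟨q, hq, hfq, hB⟩ := h ε hε
  refine hB.trans ?_
  have h1 : ∫ ω, ‖q ω - g ω‖ ^ 2 ∂μ ≤ ∫ ω, (‖f ω - g ω‖ ^ 2 + δ) ∂μ := by
    refine integral_mono (hint q hq) ((hint f hf).add (integrable_const _)) fun ω => ?_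
    have h2 : ‖q ω - g ω‖ ≤ ‖f ω - g ω‖ + ε := by
      calc ‖q ω - g ω‖ = ‖(f ω - g ω) - (f ω - q ω)‖ := by congr 1; ring
        _ ≤ ‖f ω - g ω‖ + ‖f ω - q ω‖ := norm_sub_le _ _
        _ ≤ ‖f ω - g ω‖ + ε := by linarith [hfq ω]
    have h3 : ‖q ω - g ω‖ ^ 2 ≤ (‖f ω - g ω‖ + ε) ^ 2 := pow_le_pow_left₀ (norm_nonneg _) h2 2
    have h4 := hM' ω
    have h5 : 0 ≤ ‖f ω - g ω‖ := norm_nonneg _
    show ‖q ω - g ω‖ ^ 2 ≤ ‖f ω - g ω‖ ^ 2 + δ
    nlinarith
  refine h1.trans (le_of_eq ?_)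
  rw [integral_add (hint f hf) (integrable_const _)]
  simp

end Pool.XG
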