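import Pool.Agent.XG.Assembly
import Pool.Agent.XG.Poly
import Pool.Agent.XG.Torus
import Pool.Agent.XG.Subst

/-!
# XG: the mean square error on an explicit random matrix
-/

set_option autoImplicit false

namespace Pool.XG

open Finset MvPolynomial MeasureTheory Pool.XP

theorem l2_rename {σ τ : Type} (f : σ → τ) (hf : Function.Injective f) (F : MvPolynomial σ ℂ) :
    l2 (rename f F) = l2 F := by
  classical
  unfold l2
  rw [support_rename_of_injective hf, sum_image fun a _ b _ hab =>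
    Finsupp.mapDomain_injective hf hab]
  exact sum_congr rfl fun p _ => by rw [coeff_rename_mapDomain f hf]

/-- the random matrix: the entries at the positions `L` are uniform on the unit circle, the other
entries are those of `A` -/
noncomputable def mat {n : ℕ} (A : Fin n → Fin n → ℤ) (L : Finset (Fin n × Fin n))
    (θ : Fin n × Fin n → UnitAddCircle) (p : Fin n × Fin n) : ℂ :=
  if p ∈ L then (AddCircle.toCircle (θ p) : ℂ) else (A p.1 p.2 : ℂ)

/-- the value of the permanent -/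
noncomputable def perm {n : ℕ} (x : Fin n × Fin n → ℂ) : ℂ :=
  (Matrix.of fun i j => x (i, j)).permanent

theorem continuous_toC : Continuous fun x : UnitAddCircle => (AddCircle.toCircle x : ℂ) :=
  continuous_subtype_val.comp AddCircle.continuous_toCircle

theorem continuous_mat {n : ℕ} (A : Fin n → Fin n → ℤ) (L : Finset (Fin n × Fin n)) :
    Continuous (mat A L) := by
  refine continuous_pi fun p => ?_
  unfold mat
  by_cases h : p ∈ L
  · simp only [h, if_true]
    exact continuous_toC.comp (continuous_apply p)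
  · simp only [h, if_false]
    exact continuous_const

theorem norm_mat_le {n : ℕ} {A : Fin n → Fin n → ℤ} (hA : ∀ i j, A i j = 0 ∨ A i j = 1 ∨ A i j = -1)
    (L : Finset (Fin n × Fin n)) (θ : Fin n × Fin n → UnitAddCircle) (p : Fin n × Fin n) :
    ‖mat A L θ p‖ ≤ 1 := by
  unfold mat
  split_ifs
  · exact (Circle.norm_coe _).le
  · rcases hA p.1 p.2 with h | h | h <;> rw [h] <;> simp

theorem continuous_perm {n : ℕ} : Continuous (perm : (Fin n × Fin n → ℂ) → ℂ) := by
  unfold perm Matrix.permanent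
  exact continuous_finsetSum _ fun σ _ => continuous_finsetProd _ fun i _ =>
    continuous_apply _

/-- **mean square error on an explicit random matrix** -/
theorem xg_struct : ∃ c : ℝ, 0 < c ∧ ∀ (k w n s : ℕ), 1 ≤ n → 1 ≤ s → 1 ≤ w →
    (s : ℝ) + (n : ℝ) ^ w < Real.exp (c * (n : ℝ) ^ (1 / ((Nat.fib (2 * k + 4) : ℝ) - 1))) →
    ∃ (A : Fin n → Fin n → ℤ) (L : Finset (Fin n × Fin n)),
      (∀ i j, A i j = 0 ∨ A i j = 1 ∨ A i j = -1) ∧
      ((2 * (n / 4)).factorial : ℝ) ≤ ∫ θ, ‖perm (mat A L θ)‖ ^ 2 ∧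
      ∀ P : Fin s → (Fin n × Fin n → ℂ) → ℂ, IsCircuitE (k + 1) w P → ∀ g,
        (1 - Real.exp (-(c * (n : ℝ) ^ (1 / ((Nat.fib (2 * k + 4) : ℝ) - 1))))) *
          ∫ θ, ‖perm (mat A L θ)‖ ^ 2 ≤ ∫ θ, ‖P g (mat A L θ) - perm (mat A L θ)‖ ^ 2 := by
  classical
  obtain ⟨c, hc, H⟩ := xg
  refine ⟨c, hc, ?_⟩
  intro k w n s hn hs hw hsize
  obtain ⟨R, Q, hR, hQ, hRQ, hxg⟩ := H k w n n s hn le_rfl hs hw hsize
  obtain ⟨ε, hε⟩ : ∃ ε : ℝ, ε = Real.exp (-(c * (n : ℝ) ^
    (1 / ((Nat.fib (2 * k + 4) : ℝ) - 1)))) := ⟨_, rfl⟩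
  rw [← hε] at hxg ⊢
  obtain ⟨A, pos, J, hinj, -, hA, -, -, -, hperm⟩ := exists_mat R Q n (by omega)
  obtain ⟨L, hL⟩ : ∃ L : Finset (Fin n × Fin n), L = univ.image pos := ⟨_, rfl⟩
  obtain ⟨γ, hγ⟩ : ∃ γ : ℂ, γ = (-2) ^ R * 2 ^ Q := ⟨_, rfl⟩
  have hγ2 : ‖γ‖ ^ 2 = 4 ^ (R + Q) := by
    rw [hγ, norm_mul, norm_pow, norm_pow, norm_neg, Complex.norm_ofNat, ← pow_add, ← pow_mul,
      mul_comm, pow_mul]
    norm_num
  -- the substitution
  let φ : Fin n × Fin n → MvPolynomial (Row R Q × Col R Q) ℂ := fun p =>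
    if h : ∃ l, pos l = p then X h.choose else C ((A p.1 p.2 : ℤ) : ℂ)
  have hφ : ∀ p, (φ p).totalDegree ≤ 1 := by
    intro p
    show (if h : ∃ l, pos l = p then X h.choose else C ((A p.1 p.2 : ℤ) : ℂ) :
      MvPolynomial (Row R Q × Col R Q) ℂ).totalDegree ≤ 1
    split_ifs
    · exact (totalDegree_X _).le
    · rw [totalDegree_C]
      exact Nat.zero_le _
  -- the letters
  let y : (Fin n × Fin n → UnitAddCircle) → Row R Q × Col R Q → ℂ := fun θ l =>
    (AddCircle.toCircle (θ (pos l)) : ℂ)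
  have hyφ : ∀ θ p, eval (y θ) (φ p) = mat A L θ p := by
    intro θ p
    show eval (y θ) (if h : ∃ l, pos l = p then X h.choose else C ((A p.1 p.2 : ℤ) : ℂ)) = _
    unfold mat
    by_cases h : ∃ l, pos l = p
    · have h1 : p ∈ L := by
        rw [hL, mem_image]
        obtain ⟨l, hl⟩ := h
        exact ⟨l, mem_univ _, hl⟩
      rw [dif_pos h, if_pos h1, eval_X]
      show (AddCircle.toCircle (θ (pos h.choose)) : ℂ) = _
      rw [h.choose_spec]
    · have h1 : p ∉ L := by
        rw [hL, mem_image]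
        rintro ⟨l, -, hl⟩
        exact h ⟨l, hl⟩
      rw [dif_neg h, if_neg h1, eval_C]
  have heval : ∀ (θ : Fin n × Fin n → UnitAddCircle) (F : MvPolynomial (Fin n × Fin n) ℂ),
      eval (y θ) (aeval φ F) = eval (mat A L θ) F := by
    intro θ F
    have h1 : (eval (y θ)).comp (aeval φ : MvPolynomial (Fin n × Fin n) ℂ →ₐ[ℂ] _).toRingHom =
        eval (mat A L θ) := by
      apply MvPolynomial.ringHom_ext
      · intro a
        simp
      · intro p
        show eval (y θ) (aeval φ (X p)) = _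
        rw [aeval_X, eval_X, hyφ]
    exact DFunLike.congr_fun h1 F
  have hpm : ∀ θ, perm (mat A L θ) = eval (y θ) (C γ * codeQ (Om R Q) ℂ) := by
    intro θ
    have h1 := hperm ℂ 1 (y θ) (fun i j => mat A L θ (i, j)) (fun l => by
      show mat A L θ (pos l) = _
      unfold mat
      rw [if_pos (by rw [hL, mem_image]; exact ⟨l, mem_univ _, rfl⟩)]) (fun i j hij => by
      unfold mat
      rw [if_neg (by rw [hL, mem_image]; rintro ⟨l, -, hl⟩; exact hij l hl), one_mul])
    unfold perm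
    rw [h1, one_pow, one_mul, map_mul, eval_C, hγ]
    congr 1
    unfold codeQ
    rw [map_sum]
    refine sum_congr rfl fun t _ => ?_
    rw [map_prod]
    exact prod_congr rfl fun i _ => (eval_X _).symm
  -- Parseval
  have hint : ∀ G : MvPolynomial (Row R Q × Col R Q) ℂ,
      ∫ θ : Fin n × Fin n → UnitAddCircle, ‖eval (y θ) G‖ ^ 2 = l2 G := by
    intro G
    rw [← l2_rename pos hinj G, ← parseval_torus]
    refine integral_congr_ae (Filter.Eventually.of_forall fun θ => ?_)
    show ‖eval (y θ) G‖ ^ 2 = ‖eval (fun p => (AddCircle.toCircle (θ p) : ℂ)) (rename pos G)‖ ^ 2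
    rw [eval_rename]
    rfl
  have hE : ∫ θ, ‖perm (mat A L θ)‖ ^ 2 = ‖γ‖ ^ 2 * (Om R Q).card := by
    rw [← l2_codeQ, ← l2_C_mul, ← hint]
    exact integral_congr_ae (Filter.Eventually.of_forall fun θ => by
      show ‖perm (mat A L θ)‖ ^ 2 = _
      rw [hpm])
  refine ⟨A, L, hA, ?_, fun P hP g => ?_⟩
  · rw [hE, hγ2, ← hRQ]
    exact_mod_cast card_Om_ge R Q
  · rw [hE]
    have : IsProbabilityMeasure (volume : Measure UnitAddCircle) := ⟨UnitAddCircle.measure_univ⟩
    refine le_integral_of_approx volume (fun θ => P g (mat A L θ)) (fun θ => perm (mat A L θ))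
      (continuous_perm.comp (continuous_mat A L)) fun δ hδ => ?_
    obtain ⟨p, hp, hPp⟩ := exists_poly_on hP 1 hδ
    refine ⟨fun θ => eval (mat A L θ) (p g), ?_, fun θ => hPp g _ (norm_mat_le hA L θ), ?_⟩
    · exact (MvPolynomial.continuous_eval (p g)).comp (continuous_mat A L)
    · have h1 := hxg p hp g φ hφ γ
      rw [← hint] at h1
      refine h1.trans (le_of_eq ?_)
      refine integral_congr_ae (Filter.Eventually.of_forall fun θ => ?_)
      show ‖eval (y θ) (aeval φ (p g) - C γ * codeQ (Om R Q) ℂ)‖ ^ 2 =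
        ‖eval (mat A L θ) (p g) - perm (mat A L θ)‖ ^ 2
      rw [map_sub, heval, hpm]

end Pool.XG
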